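import Pool.Agent.T2H19.HD.Stm

/-! Package ABS of project HD (helper19), by helper94. -/

set_option autoImplicit false

namespace Pool.Agent.T2H19.HD

open Finset Filter Topology MeasureTheory

namespace PkgABS

lemma zz_cont : Continuous zz := (fourier 1).continuous

lemma zz_norm (θ : UnitAddCircle) : ‖zz θ‖ = 1 := by
  rw [zz, fourier_apply]
  exact Circle.norm_coe _

lemma den_pos {r : ℝ} (h0 : 0 ≤ r) (h1 : r < 1) (θ : UnitAddCircle) :
    0 < ‖1 - (r : ℂ) * zz θ‖ := by
  have h2 := norm_sub_norm_le (1 : ℂ) ((r : ℂ) * zz θ)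
  rw [norm_mul, zz_norm, norm_one, Complex.norm_real, Real.norm_of_nonneg h0, mul_one] at h2
  linarith

lemma PK_cont {r : ℝ} (h0 : 0 ≤ r) (h1 : r < 1) : Continuous (PK r) := by
  unfold PK
  refine Continuous.div continuous_const
    ((continuous_const.sub (continuous_const.mul zz_cont)).norm.pow 2) fun θ => ?_
  exact pow_ne_zero 2 (den_pos h0 h1 θ).ne'

lemma PK_pos {r : ℝ} (h0 : 0 ≤ r) (h1 : r < 1) (θ : UnitAddCircle) : 0 < PK r θ := by
  unfold PK
  exact div_pos (by nlinarith) (pow_pos (den_pos h0 h1 θ) 2)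

/-- the product of the square roots of the Poisson kernels -/
noncomputable def PP {n : ℕ} (r : Fin n → ℝ) (θ : Fin n → UnitAddCircle) : ℝ :=
  ∏ i, √(PK (r i) (θ i))

lemma PP_cont {n : ℕ} {r : Fin n → ℝ} (h0 : ∀ i, 0 ≤ r i) (h1 : ∀ i, r i < 1) :
    Continuous (PP r) := by
  unfold PP
  exact continuous_finsetProd _ fun i _ =>
    Real.continuous_sqrt.comp ((PK_cont (h0 i) (h1 i)).comp (continuous_apply i))

lemma PP_pos {n : ℕ} {r : Fin n → ℝ} (h0 : ∀ i, 0 ≤ r i) (h1 : ∀ i, r i < 1)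
    (θ : Fin n → UnitAddCircle) : 0 < PP r θ :=
  Finset.prod_pos fun i _ => Real.sqrt_pos.mpr (PK_pos (h0 i) (h1 i) (θ i))

lemma integ {n : ℕ} {f : (Fin n → UnitAddCircle) → ℝ} (hf : Continuous f) : Integrable f :=
  hf.integrable_of_hasCompactSupport (HasCompactSupport.of_compactSpace f)

lemma int_PP {n : ℕ} (r s : Fin n → ℝ) :
    ∫ θ : Fin n → UnitAddCircle, PP r θ * PP s θ = ∏ i, GG (r i) (s i) := by
  unfold GG PP
  rw [← integral_fintype_prod_volume_eq_prod]
  refine integral_congr_ae (Filter.Eventually.of_forall fun θ => ?_)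
  exact (Finset.prod_mul_distrib).symm

lemma ev_cont {n : ℕ} (c : (Fin n → ℕ) →₀ ℂ) :
    Continuous (fun θ : Fin n → UnitAddCircle => ev c (fun i => zz (θ i))) := by
  unfold ev Finsupp.sum
  refine continuous_finsetSum _ fun α _ => continuous_const.mul ?_
  exact continuous_finsetProd _ fun i _ => (zz_cont.comp (continuous_apply i)).pow _

end PkgABS

open PkgABS in
theorem T_ABS (h : P_SUBN) : P_ABS := by
  intro n m c r h0 h1 κ hκ C hC hsum
  rcases Nat.eq_zero_or_pos m with hm | hm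
  · subst hm
    rw [Finset.sum_range_zero]
    exact mul_nonneg hC (integral_nonneg fun θ => norm_nonneg _)
  obtain ⟨μ, hμ⟩ : ∃ μ : ℕ → ℝ, μ = fun I => κ I * ∏ i, (1 - r I i ^ 2)⁻¹ := ⟨_, rfl⟩
  have hone : ∀ J i, 0 < 1 - r J i ^ 2 := fun J i => by nlinarith [h0 J i, h1 J i]
  have hμpos : ∀ I, 0 < μ I := by
    intro I
    rw [hμ]
    exact mul_pos (hκ I) (Finset.prod_pos fun i _ => inv_pos.mpr (hone I i))
  obtain ⟨S, hS⟩ : ∃ S : (Fin n → UnitAddCircle) → ℝ,
      S = fun θ => ∑ I ∈ range m, μ I * PP (r I) θ := ⟨_, rfl⟩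
  have hSpos : ∀ θ, 0 < S θ := by
    intro θ
    rw [hS]
    exact Finset.sum_pos (fun I _ => mul_pos (hμpos I) (PP_pos (h0 I) (h1 I) θ))
      ⟨0, Finset.mem_range.mpr hm⟩
  have hScont : Continuous S := by
    rw [hS]
    exact continuous_finsetSum _ fun I _ => continuous_const.mul (PP_cont (h0 I) (h1 I))
  obtain ⟨F, hF⟩ : ∃ F : (Fin n → UnitAddCircle) → ℝ,
      F = fun θ => ‖ev c (fun i => zz (θ i))‖ := ⟨_, rfl⟩
  have hFcont : Continuous F := by
    rw [hF]
    exact (ev_cont c).norm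
  have hF0 : ∀ θ, 0 ≤ F θ := by
    intro θ
    rw [hF]
    exact norm_nonneg _
  have hwcont : ∀ J, Continuous (fun θ => F θ * (PP (r J) θ / S θ)) := fun J =>
    hFcont.mul ((PP_cont (h0 J) (h1 J)).div hScont fun θ => (hSpos θ).ne')
  -- the estimate for one point
  have hJ : ∀ J ∈ range m, κ J * ‖ev c (fun i => (r J i : ℂ))‖ ≤
      μ J * (C * ∫ θ, F θ * (PP (r J) θ / S θ)) := by
    intro J hJm
    have hJm' := Finset.mem_range.mp hJm
    obtain ⟨A, hA⟩ : ∃ A : ℝ, A = ∫ θ, F θ * (PP (r J) θ / S θ) := ⟨_, rfl⟩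
    obtain ⟨B, hB⟩ : ∃ B : ℝ, B = ∫ θ, PP (r J) θ * S θ := ⟨_, rfl⟩
    obtain ⟨x, hx⟩ : ∃ x : ℝ, x = ∫ θ, √(F θ) * PP (r J) θ := ⟨_, rfl⟩
    have hA0 : 0 ≤ A := by
      rw [hA]
      exact integral_nonneg fun θ => mul_nonneg (hF0 θ)
        (div_nonneg (PP_pos (h0 J) (h1 J) θ).le (hSpos θ).le)
    have hx0 : 0 ≤ x := by
      rw [hx]
      exact integral_nonneg fun θ => mul_nonneg (Real.sqrt_nonneg _) (PP_pos (h0 J) (h1 J) θ).le
    have hBC : B ≤ C := by
      have e1 : B = ∑ I ∈ range m, μ I * ∏ i, GG (r I i) (r J i) := by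
        rw [hB, hS]
        have e2 : ∀ θ : Fin n → UnitAddCircle, PP (r J) θ * ∑ I ∈ range m, μ I * PP (r I) θ =
            ∑ I ∈ range m, μ I * (PP (r I) θ * PP (r J) θ) := by
          intro θ
          rw [Finset.mul_sum]
          exact Finset.sum_congr rfl fun I _ => by ring
        rw [integral_congr_ae (Filter.Eventually.of_forall e2), integral_finsetSum]
        · refine Finset.sum_congr rfl fun I _ => ?_
          rw [integral_const_mul, int_PP]
        · intro I _
          exact (integ ((PP_cont (h0 I) (h1 I)).mul (PP_cont (h0 J) (h1 J)))).const_mul _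
      rw [e1, hμ]
      exact hsum J hJm'
    have hAB : x ^ 2 ≤ A * B := by
      have hq : ∀ t : ℝ, 0 ≤ A * (t * t) + (-2 * x) * t + B := by
        intro t
        have i1 : Integrable (fun θ => (t * t) * (F θ * (PP (r J) θ / S θ))) :=
          (integ (hwcont J)).const_mul _
        have i2 : Integrable (fun θ => (2 * t) * (√(F θ) * PP (r J) θ)) :=
          (integ ((Real.continuous_sqrt.comp hFcont).mul (PP_cont (h0 J) (h1 J)))).const_mul _
        have i3 : Integrable (fun θ => PP (r J) θ * S θ) :=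
          integ ((PP_cont (h0 J) (h1 J)).mul hScont)
        have i12 : Integrable (fun θ => (t * t) * (F θ * (PP (r J) θ / S θ)) -
            (2 * t) * (√(F θ) * PP (r J) θ)) := i1.sub i2
        have e3 : A * (t * t) + (-2 * x) * t + B =
            ∫ θ, ((t * t) * (F θ * (PP (r J) θ / S θ)) - (2 * t) * (√(F θ) * PP (r J) θ) +
              PP (r J) θ * S θ) := by
          rw [integral_add i12 i3, integral_sub i1 i2, integral_const_mul, integral_const_mul,
            ← hA, ← hB, ← hx]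
          ring
        rw [e3]
        refine integral_nonneg fun θ => ?_
        have e4 : (t * t) * (F θ * (PP (r J) θ / S θ)) - (2 * t) * (√(F θ) * PP (r J) θ) +
            PP (r J) θ * S θ = PP (r J) θ / S θ * (t * √(F θ) - S θ) ^ 2 := by
          have e5 : F θ = √(F θ) * √(F θ) := (Real.mul_self_sqrt (hF0 θ)).symm
          have e6 := (hSpos θ).ne'
          generalize √(F θ) = w at e5 ⊢
          rw [e5]
          field_simp
          ring
        show 0 ≤ (t * t) * (F θ * (PP (r J) θ / S θ)) - (2 * t) * (√(F θ) * PP (r J) θ) +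
            PP (r J) θ * S θ
        rw [e4]
        exact mul_nonneg (div_nonneg (PP_pos (h0 J) (h1 J) θ).le (hSpos θ).le) (sq_nonneg _)
      have hd := discrim_le_zero hq
      unfold discrim at hd
      nlinarith
    have hsub := h n c (r J) (h0 J) (h1 J)
    have hsub' : √‖ev c (fun i => (r J i : ℂ))‖ * ∏ i, √(1 - r J i ^ 2) ≤ x := by
      rw [hx, hF]
      exact hsub
    have hsq : ‖ev c (fun i => (r J i : ℂ))‖ * ∏ i, (1 - r J i ^ 2) ≤ x ^ 2 := by
      have h2 := pow_le_pow_left₀ (mul_nonneg (Real.sqrt_nonneg _)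
        (Finset.prod_nonneg fun i _ => Real.sqrt_nonneg _)) hsub' 2
      rw [mul_pow, Real.sq_sqrt (norm_nonneg _), ← Finset.prod_pow] at h2
      rw [Finset.prod_congr rfl fun i _ => Real.sq_sqrt (hone J i).le] at h2
      exact h2
    have hprod : (∏ i, (1 - r J i ^ 2)⁻¹) * ∏ i, (1 - r J i ^ 2) = 1 := by
      rw [← Finset.prod_mul_distrib]
      exact Finset.prod_eq_one fun i _ => inv_mul_cancel₀ (hone J i).ne'
    have e7 : κ J * ‖ev c (fun i => (r J i : ℂ))‖ =
        μ J * (‖ev c (fun i => (r J i : ℂ))‖ * ∏ i, (1 - r J i ^ 2)) := by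
      rw [hμ]
      calc κ J * ‖ev c (fun i => (r J i : ℂ))‖ = κ J * ‖ev c (fun i => (r J i : ℂ))‖ *
            ((∏ i, (1 - r J i ^ 2)⁻¹) * ∏ i, (1 - r J i ^ 2)) := by rw [hprod, mul_one]
        _ = _ := by ring
    rw [e7]
    refine mul_le_mul_of_nonneg_left ?_ (hμpos J).le
    rw [← hA]
    calc _ ≤ x ^ 2 := hsq
      _ ≤ A * B := hAB
      _ ≤ A * C := mul_le_mul_of_nonneg_left hBC hA0
      _ = C * A := mul_comm _ _
  refine (Finset.sum_le_sum hJ).trans (le_of_eq ?_)
  have e8 : ∀ J, μ J * (C * ∫ θ, F θ * (PP (r J) θ / S θ)) =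
      C * ∫ θ, μ J * (F θ * (PP (r J) θ / S θ)) := by
    intro J
    rw [integral_const_mul]
    ring
  rw [Finset.sum_congr rfl fun J _ => e8 J, ← Finset.mul_sum, ← integral_finsetSum]
  · congr 1
    refine integral_congr_ae (Filter.Eventually.of_forall fun θ => ?_)
    show ∑ J ∈ range m, μ J * (F θ * (PP (r J) θ / S θ)) = ‖ev c (fun i => zz (θ i))‖
    have e9 : ∑ J ∈ range m, μ J * (F θ * (PP (r J) θ / S θ)) =
        F θ * ((∑ J ∈ range m, μ J * PP (r J) θ) / S θ) := by
      rw [Finset.sum_div, Finset.mul_sum]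
      exact Finset.sum_congr rfl fun J _ => by ring
    have e10 : ∑ J ∈ range m, μ J * PP (r J) θ = S θ := by rw [hS]
    rw [e9, e10, div_self (hSpos θ).ne', mul_one, hF]
  · intro J _
    exact (integ (hwcont J)).const_mul _

end Pool.Agent.T2H19.HD
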