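import Pool.Agent.T2H19.HD.Stm

/-! # HD, package ADD (helper77): geometric sums -/

set_option autoImplicit false

namespace Pool.Agent.T2H19.HD

open Finset Filter Topology MeasureTheory

namespace PkgADD

lemma geoA (m : ℕ) : ∀ x : ℝ, 0 < x →
    (∑ I ∈ range m, if (1 / 2 : ℝ) ^ I < x then (1 / 2 : ℝ) ^ I else 0) ≤ 2 * x ∧
    (∑ I ∈ range m, if (1 / 2 : ℝ) ^ I < x then (1 / 2 : ℝ) ^ I else 0) ≤ 2 := by
  induction m with
  | zero =>
    intro x hx
    simp only [range_zero, sum_empty]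
    constructor <;> linarith
  | succ m ih =>
    intro x hx
    rw [sum_range_succ']
    have h1 : ∑ I ∈ range m, (if (1 / 2 : ℝ) ^ (I + 1) < x then (1 / 2 : ℝ) ^ (I + 1) else 0) =
        1 / 2 * ∑ I ∈ range m, (if (1 / 2 : ℝ) ^ I < 2 * x then (1 / 2 : ℝ) ^ I else 0) := by
      rw [mul_sum]
      refine sum_congr rfl fun I _ => ?_
      by_cases h : (1 / 2 : ℝ) ^ I < 2 * x
      · rw [if_pos h, if_pos (by rw [pow_succ]; linarith), pow_succ]
        ring
      · rw [if_neg h, if_neg (by rw [pow_succ]; intro h'; exact h (by linarith)), mul_zero]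
    rw [h1]
    obtain ⟨h2, h3⟩ := ih (2 * x) (by linarith)
    rw [pow_zero]
    constructor
    · by_cases h : (1 : ℝ) < x
      · rw [if_pos h]
        linarith
      · rw [if_neg h]
        linarith
    · by_cases h : (1 : ℝ) < x
      · rw [if_pos h]
        linarith
      · rw [if_neg h]
        linarith

lemma geo {q : ℝ} (h0 : 0 ≤ q) (h1 : q < 1) (m : ℕ) : ∑ j ∈ range m, q ^ j ≤ (1 - q)⁻¹ :=
  ((summable_geometric_of_lt_one h0 h1).sum_le_tsum (range m) fun _ _ => pow_nonneg h0 _).trans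
    (tsum_geometric_of_lt_one h0 h1).le

lemma two_rpow (N : ℕ) (α : ℝ) : ((2 : ℝ) ^ N) ^ (-α) = ((1 / 2 : ℝ) ^ α) ^ N := by
  rw [← Real.rpow_natCast, ← Real.rpow_natCast, ← Real.rpow_mul (by norm_num),
    ← Real.rpow_mul (by norm_num), one_div, Real.inv_rpow (by norm_num), ← Real.rpow_neg (by norm_num)]
  congr 1
  ring

lemma geoB {q : ℝ} (h0 : 0 ≤ q) (h1 : q < 1) (m J : ℕ) :
    (∑ I ∈ range m, if J ≤ I then q ^ (I - J) else 0) ≤ (1 - q)⁻¹ := by
  rw [← sum_filter]
  have h2 : ∑ I ∈ (range m).filter (fun I => J ≤ I), q ^ (I - J) =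
      ∑ j ∈ ((range m).filter (fun I => J ≤ I)).image (fun I => I - J), q ^ j := by
    rw [sum_image]
    intro a ha b hb hab
    simp only [coe_filter, Set.mem_ofPred_eq] at ha hb
    have ha2 := ha.2
    have hb2 := hb.2
    simp only at hab
    omega
  rw [h2]
  refine le_trans (sum_le_sum_of_subset_of_nonneg (t := range m) ?_ fun j _ _ => pow_nonneg h0 j)
    (geo h0 h1 m)
  intro j hj
  rw [mem_image] at hj
  obtain ⟨I, hI, rfl⟩ := hj
  rw [mem_filter, mem_range] at hI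
  rw [mem_range]
  omega

lemma geoC {α : ℝ} (hα : 0 < α) (y : ℝ) (m : ℕ) :
    (∑ I ∈ range m, if 1 ≤ (1 / 2 : ℝ) ^ I * y then ((1 / 2 : ℝ) ^ I * y) ^ (-α) else 0) ≤
      (1 - (1 / 2 : ℝ) ^ α)⁻¹ := by
  obtain ⟨q, hq⟩ : ∃ q : ℝ, q = (1 / 2 : ℝ) ^ α := ⟨_, rfl⟩
  have hq0 : 0 < q := by rw [hq]; positivity
  have hq1 : q < 1 := by
    rw [hq]
    exact Real.rpow_lt_one (by norm_num) (by norm_num) hα
  rw [← hq]
  have hK : 0 ≤ (1 - q)⁻¹ := inv_nonneg.2 (by linarith)
  induction m with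
  | zero => simpa using hK
  | succ m ih =>
    by_cases h : 1 ≤ (1 / 2 : ℝ) ^ m * y
    · have hy : 0 < y := by
        by_contra hy
        push Not at hy
        have : (1 / 2 : ℝ) ^ m * y ≤ 0 := mul_nonpos_of_nonneg_of_nonpos (by positivity) hy
        linarith
      have h3 : ∀ I ∈ range (m + 1),
          (if 1 ≤ (1 / 2 : ℝ) ^ I * y then ((1 / 2 : ℝ) ^ I * y) ^ (-α) else 0) ≤ q ^ (m - I) := by
        intro I hI
        rw [mem_range] at hI
        split_ifs
        · have h4 : (1 / 2 : ℝ) ^ I * y = ((1 / 2 : ℝ) ^ m * y) * (2 : ℝ) ^ (m - I) := by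
            have h5 : (1 / 2 : ℝ) ^ m = (1 / 2 : ℝ) ^ I * (1 / 2 : ℝ) ^ (m - I) := by
              rw [← pow_add]
              congr 1
              omega
            have h6 : (1 / 2 : ℝ) ^ (m - I) * (2 : ℝ) ^ (m - I) = 1 := by
              rw [← mul_pow]
              norm_num
            rw [h5]
            calc (1 / 2 : ℝ) ^ I * y = (1 / 2 : ℝ) ^ I * y * ((1 / 2 : ℝ) ^ (m - I) * (2 : ℝ) ^ (m - I)) := by
                  rw [h6, mul_one]
              _ = _ := by ring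
          rw [h4, Real.mul_rpow (by positivity) (by positivity)]
          have h7 : ((1 / 2 : ℝ) ^ m * y) ^ (-α) ≤ 1 := by
            rw [Real.rpow_neg (by positivity)]
            exact inv_le_one_of_one_le₀ (Real.one_le_rpow h hα.le)
          have h8 : ((2 : ℝ) ^ (m - I)) ^ (-α) = q ^ (m - I) := by
            rw [hq]
            exact two_rpow _ _
          rw [h8]
          calc ((1 / 2 : ℝ) ^ m * y) ^ (-α) * q ^ (m - I) ≤ 1 * q ^ (m - I) :=
                mul_le_mul_of_nonneg_right h7 (by positivity)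
            _ = _ := one_mul _
        · positivity
      refine le_trans (sum_le_sum h3) ?_
      have h9 : ∑ I ∈ range (m + 1), q ^ (m - I) = ∑ j ∈ range (m + 1), q ^ j := by
        rw [← sum_range_reflect]
        refine sum_congr rfl fun I hI => ?_
        congr 1
        rw [mem_range] at hI
        omega
      rw [h9]
      exact geo hq0.le hq1 _
    · rw [sum_range_succ, if_neg h, add_zero]
      exact ih

lemma DD_nonneg (n : ℕ) (s t : ℝ) : 0 ≤ DD n s t := sum_nonneg fun _ _ => sq_nonneg _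

lemma DD_symm (n : ℕ) (s t : ℝ) : DD n s t = DD n t s := by
  unfold DD
  refine sum_congr rfl fun _ _ => ?_
  ring

end PkgADD

open PkgADD in
theorem T_ADD (ha : P_MUA) (hb : P_MUB) (hd : P_DDL) : P_ADD := by
  obtain ⟨Cb, hCb, hb⟩ := hb
  obtain ⟨Cd, hCd, hd⟩ := hd
  obtain ⟨q, hq⟩ : ∃ q : ℝ, q = (1 / 2 : ℝ) ^ (1 / 100 : ℝ) := ⟨_, rfl⟩
  have hq0 : 0 < q := by rw [hq]; positivity
  have hq1 : q < 1 := by
    rw [hq]
    exact Real.rpow_lt_one (by norm_num) (by norm_num) (by norm_num)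
  have hK : 0 < (1 - q)⁻¹ := inv_pos.2 (by linarith)
  refine ⟨4 * Cb + 4 * Cd * (1 - q)⁻¹, by positivity, ?_⟩
  intro n m J u hu1 hu2
  have hu0 : 0 < u := by linarith
  obtain ⟨l, hl⟩ : ∃ l, l = Real.log (pp n) := ⟨_, rfl⟩
  have hl0 : 0 < l := by
    rw [hl]
    apply Real.log_pos
    have : (pp n).Prime := Nat.prime_nth_prime n
    exact_mod_cast this.one_lt
  obtain ⟨sg, hsg⟩ : ∃ sg : ℕ → ℝ, sg = fun I => (1 / 2 : ℝ) ^ I * u := ⟨_, rfl⟩
  have hsI : ∀ I, (1 / 2 : ℝ) ^ I * u = sg I := fun I => by rw [hsg]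
  have hs0 : ∀ I, 0 < sg I := fun I => by rw [← hsI]; positivity
  have hs1 : ∀ I, sg I ≤ 1 := fun I => by
    rw [← hsI]
    have : (1 / 2 : ℝ) ^ I ≤ 1 := pow_le_one₀ (by norm_num) (by norm_num)
    nlinarith
  have hsle : ∀ I I' : ℕ, I ≤ I' → sg I' ≤ sg I := fun I I' h => by
    rw [← hsI, ← hsI]
    exact mul_le_mul_of_nonneg_right (pow_le_pow_of_le_one (by norm_num) (by norm_num) h) hu0.le
  obtain ⟨M, hM⟩ : ∃ M, M = min l (1 / sg J) := ⟨_, rfl⟩
  have hM0 : 0 < M := by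
    rw [hM]
    exact lt_min hl0 (by have := hs0 J; positivity)
  have key : ∀ I ∈ range m, (1 / 2 : ℝ) ^ I * mu n ((1 / 2 : ℝ) ^ I * u) *
      Real.exp (-(DD n ((1 / 2 : ℝ) ^ I * u) ((1 / 2 : ℝ) ^ J * u)) / 4) ≤
      Cb * l * (if (1 / 2 : ℝ) ^ I < 1 / (l * u) then (1 / 2 : ℝ) ^ I else 0) +
      2 * Cd * (if J ≤ I then q ^ (I - J) else 0) +
      2 * Cd * (if 1 ≤ (1 / 2 : ℝ) ^ I * (u * M) then ((1 / 2 : ℝ) ^ I * (u * M)) ^ (-(1 / 100 : ℝ)) else 0) := by
    intro I _
    rw [hsI, hsI]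
    have hA0 : 0 ≤ Cb * l * (if (1 / 2 : ℝ) ^ I < 1 / (l * u) then (1 / 2 : ℝ) ^ I else 0) := by
      split_ifs <;> positivity
    have hB0 : 0 ≤ 2 * Cd * (if J ≤ I then q ^ (I - J) else 0) := by
      split_ifs <;> positivity
    have hC0 : 0 ≤ 2 * Cd * (if 1 ≤ (1 / 2 : ℝ) ^ I * (u * M) then
        ((1 / 2 : ℝ) ^ I * (u * M)) ^ (-(1 / 100 : ℝ)) else 0) := by
      split_ifs with h
      · have : 0 < (1 / 2 : ℝ) ^ I * (u * M) := by positivity
        positivity
      · simp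
    have hp : (0 : ℝ) < (1 / 2 : ℝ) ^ I := by positivity
    have he0 : 0 < Real.exp (-(DD n (sg I) (sg J)) / 4) := Real.exp_pos _
    by_cases h1 : sg I < 1 / l
    · -- the small ones
      have h2 : (1 / 2 : ℝ) ^ I < 1 / (l * u) := by
        rw [lt_div_iff₀ (by positivity)]
        rw [lt_div_iff₀ hl0, ← hsI] at h1
        linarith
      have h3 : Real.exp (-(DD n (sg I) (sg J)) / 4) ≤ 1 := by
        rw [Real.exp_le_one_iff]
        have := DD_nonneg n (sg I) (sg J)
        linarith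
      have h4 := hb n (sg I) (hs0 I).le
      rw [← hl] at h4
      have h5 : (1 / 2 : ℝ) ^ I * mu n (sg I) * Real.exp (-(DD n (sg I) (sg J)) / 4) ≤
          Cb * l * (1 / 2 : ℝ) ^ I := by
        calc (1 / 2 : ℝ) ^ I * mu n (sg I) * Real.exp (-(DD n (sg I) (sg J)) / 4) ≤
            (1 / 2 : ℝ) ^ I * (Cb * l) * Real.exp (-(DD n (sg I) (sg J)) / 4) :=
              mul_le_mul_of_nonneg_right (mul_le_mul_of_nonneg_left h4 hp.le) he0.le
          _ ≤ (1 / 2 : ℝ) ^ I * (Cb * l) * 1 := mul_le_mul_of_nonneg_left h3 (by positivity)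
          _ = _ := by ring
      rw [if_pos h2]
      linarith
    · push Not at h1
      have h6 : (1 / 2 : ℝ) ^ I * mu n (sg I) ≤ 2 := by
        have h7 := ha n (sg I) (hs0 I)
        have h8 : (1 / 2 : ℝ) ^ I * (1 + 1 / (2 * sg I)) = (1 / 2 : ℝ) ^ I + 1 / (2 * u) := by
          rw [← hsI]
          field_simp
        have h9 : (1 / 2 : ℝ) ^ I ≤ 1 := pow_le_one₀ (by norm_num) (by norm_num)
        have h10 : 1 / (2 * u) ≤ 1 := by
          rw [div_le_one (by positivity)]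
          linarith
        calc (1 / 2 : ℝ) ^ I * mu n (sg I) ≤ (1 / 2 : ℝ) ^ I * (1 + 1 / (2 * sg I)) :=
              mul_le_mul_of_nonneg_left h7 hp.le
          _ = (1 / 2 : ℝ) ^ I + 1 / (2 * u) := h8
          _ ≤ 2 := by linarith
      have h11 : (1 / 2 : ℝ) ^ I * mu n (sg I) * Real.exp (-(DD n (sg I) (sg J)) / 4) ≤
          2 * Real.exp (-(DD n (sg I) (sg J)) / 4) := mul_le_mul_of_nonneg_right h6 he0.le
      by_cases hJ : J ≤ I
      · have h12 := hd n (sg I) (sg J) (hs0 I) (hsle J I hJ) (hs1 J)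
        rw [← hl] at h12
        have h13 : min l (1 / sg I) = 1 / sg I := by
          refine min_eq_right ?_
          rw [div_le_iff₀ (hs0 I)]
          rw [div_le_iff₀ hl0] at h1
          linarith
        have h14 : sg J * (1 / sg I) = (2 : ℝ) ^ (I - J) := by
          have h15 : (1 / 2 : ℝ) ^ I = (1 / 2 : ℝ) ^ J * (1 / 2 : ℝ) ^ (I - J) := by
            rw [← pow_add]
            congr 1
            omega
          have h16 : (1 / 2 : ℝ) ^ (I - J) * (2 : ℝ) ^ (I - J) = 1 := by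
            rw [← mul_pow]
            norm_num
          have h17 : sg I ≠ 0 := (hs0 I).ne'
          rw [mul_one_div, div_eq_iff h17, ← hsI, ← hsI, h15]
          calc (1 / 2 : ℝ) ^ J * u = (1 / 2 : ℝ) ^ J * u * ((1 / 2 : ℝ) ^ (I - J) * (2 : ℝ) ^ (I - J)) := by
                rw [h16, mul_one]
            _ = _ := by ring
        have h18 : ((2 : ℝ) ^ (I - J)) ^ (-(1 / 100) : ℝ) = q ^ (I - J) := by
          rw [hq]
          exact two_rpow _ _
        rw [h13, h14, h18] at h12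
        rw [if_pos hJ] at hB0 ⊢
        have : 2 * Real.exp (-(DD n (sg I) (sg J)) / 4) ≤ 2 * (Cd * q ^ (I - J)) :=
          mul_le_mul_of_nonneg_left h12 (by norm_num)
        linarith
      · push Not at hJ
        have h12 := hd n (sg J) (sg I) (hs0 J) (hsle I J hJ.le) (hs1 I)
        rw [← hl, ← hM, DD_symm] at h12
        have h13 : sg I * M = (1 / 2 : ℝ) ^ I * (u * M) := by
          rw [← hsI]
          ring
        have h14 : 1 ≤ (1 / 2 : ℝ) ^ I * (u * M) := by
          rw [← h13, hM]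
          rcases le_total l (1 / sg J) with h | h
          · rw [min_eq_left h]
            rw [div_le_iff₀ hl0] at h1
            exact h1
          · rw [min_eq_right h, mul_one_div, one_le_div (hs0 J)]
            exact hsle I J hJ.le
        rw [if_pos h14] at hC0 ⊢
        rw [h13] at h12
        have : 2 * Real.exp (-(DD n (sg I) (sg J)) / 4) ≤
            2 * (Cd * ((1 / 2 : ℝ) ^ I * (u * M)) ^ (-(1 / 100) : ℝ)) :=
          mul_le_mul_of_nonneg_left h12 (by norm_num)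
        linarith
  refine le_trans (sum_le_sum key) ?_
  rw [sum_add_distrib, sum_add_distrib, ← mul_sum, ← mul_sum, ← mul_sum]
  have hx : 0 < 1 / (l * u) := by positivity
  have e1 := (geoA m (1 / (l * u)) hx).1
  have e2 := geoB hq0.le hq1 m J
  have e3 := geoC (α := 1 / 100) (by norm_num) (u * M) m
  rw [← hq] at e3
  have f1 : Cb * l * (∑ I ∈ range m, if (1 / 2 : ℝ) ^ I < 1 / (l * u) then (1 / 2 : ℝ) ^ I else 0) ≤
      4 * Cb := by
    calc Cb * l * (∑ I ∈ range m, if (1 / 2 : ℝ) ^ I < 1 / (l * u) then (1 / 2 : ℝ) ^ I else 0) ≤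
        Cb * l * (2 * (1 / (l * u))) := mul_le_mul_of_nonneg_left e1 (by positivity)
      _ = Cb * (2 / u) := by field_simp
      _ ≤ Cb * 4 := by
          refine mul_le_mul_of_nonneg_left ?_ hCb.le
          rw [div_le_iff₀ hu0]
          linarith
      _ = 4 * Cb := by ring
  have f2 := mul_le_mul_of_nonneg_left e2 (by positivity : 0 ≤ 2 * Cd)
  have f3 := mul_le_mul_of_nonneg_left e3 (by positivity : 0 ≤ 2 * Cd)
  linarith

end Pool.Agent.T2H19.HD
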