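import Pool.Agent.T2H19.HD.Stm
import Pool.Agent.Helper559.Mertens

/-!
# HD package DDL
-/

set_option autoImplicit false

namespace Pool.Agent.T2H19.HD

open Finset Filter Topology MeasureTheory

namespace PkgDDL

open Pool.Agent.Helper559 (S)

lemma pp_prime (i : ℕ) : (pp i).Prime := Nat.prime_nth_prime i

lemma pp_count (p : ℕ) (hp : p.Prime) : pp (Nat.count Nat.Prime p) = p := Nat.nth_count hp

lemma S_split (x y : ℕ) (h : x ≤ y) :
    S y = S x + ∑ p ∈ (Ioc x y).filter Nat.Prime, (1 : ℝ) / p := by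
  unfold Pool.Agent.Helper559.S
  have h1 : (Icc 1 y).filter Nat.Prime =
      (Icc 1 x).filter Nat.Prime ∪ (Ioc x y).filter Nat.Prime := by
    ext p
    simp only [Finset.mem_filter, Finset.mem_Icc, Finset.mem_union, Finset.mem_Ioc]
    constructor
    · rintro ⟨⟨h1, h2⟩, h3⟩
      by_cases h4 : p ≤ x
      · exact Or.inl ⟨⟨h1, h4⟩, h3⟩
      · exact Or.inr ⟨⟨not_le.1 h4, h2⟩, h3⟩
    · rintro (⟨⟨h1, h2⟩, h3⟩ | ⟨⟨h1, h2⟩, h3⟩)
      · exact ⟨⟨h1, h2.trans h⟩, h3⟩
      · exact ⟨⟨by omega, h2⟩, h3⟩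
  rw [h1, Finset.sum_union]
  rw [Finset.disjoint_left]
  intro p hp hp'
  have a := (Finset.mem_Icc.1 (Finset.mem_filter.1 hp).1).2
  have b := (Finset.mem_Ioc.1 (Finset.mem_filter.1 hp').1).1
  omega

lemma term (i : ℕ) (s t : ℝ) (hs : 0 < s) (ht : 0 < t) (h1 : 2 ≤ t * Real.log (pp i))
    (h2 : s * Real.log (pp i) ≤ 1) : (1 / 20) * ((1 : ℝ) / (pp i : ℝ)) ≤ (rr s i - rr t i) ^ 2 := by
  have hp : (0 : ℝ) < (pp i : ℝ) := by exact_mod_cast (pp_prime i).pos
  set P : ℝ := (pp i : ℝ) with hP
  have e1 : ∀ σ : ℝ, rr σ i = P ^ (-(1 / 2) : ℝ) * Real.exp (-(σ * Real.log P)) := by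
    intro σ
    unfold rr
    rw [sub_eq_add_neg, Real.rpow_add hp, Real.rpow_def_of_pos hp (-σ)]
    congr 2
    ring
  have e2 : (P ^ (-(1 / 2) : ℝ)) ^ 2 = 1 / P := by
    rw [← Real.rpow_natCast, ← Real.rpow_mul hp.le]
    norm_num
    rw [Real.rpow_neg_one]
  have hA : Real.exp (-1) ≤ Real.exp (-(s * Real.log P)) := Real.exp_le_exp.2 (by linarith)
  have hB : Real.exp (-(t * Real.log P)) ≤ Real.exp (-1) * Real.exp (-1) := by
    rw [← Real.exp_add]
    exact Real.exp_le_exp.2 (by linarith)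
  have g1 := Real.exp_neg_one_gt_d9
  have g2 := Real.exp_neg_one_lt_d9
  have hdiff : (0.23 : ℝ) ≤ Real.exp (-(s * Real.log P)) - Real.exp (-(t * Real.log P)) := by
    nlinarith
  rw [e1, e1, ← mul_sub, mul_pow, e2]
  have h3 : (1 / 20 : ℝ) ≤ (Real.exp (-(s * Real.log P)) - Real.exp (-(t * Real.log P))) ^ 2 := by
    nlinarith
  have h4 : (0 : ℝ) ≤ 1 / P := by positivity
  calc (1 / 20) * (1 / P) ≤ (Real.exp (-(s * Real.log P)) - Real.exp (-(t * Real.log P))) ^ 2 *
        (1 / P) := mul_le_mul_of_nonneg_right h3 h4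
    _ = _ := by ring

lemma DD_ge (n x y : ℕ) (s t : ℝ) (hs : 0 < s) (ht : 0 < t) (hy : y < pp n)
    (h1 : ∀ p : ℕ, x < p → 2 ≤ t * Real.log p) (h2 : ∀ p : ℕ, 1 ≤ p → p ≤ y → s * Real.log p ≤ 1) :
    (1 / 20) * ∑ p ∈ (Ioc x y).filter Nat.Prime, (1 : ℝ) / p ≤ DD n s t := by
  unfold DD
  have hinj : Set.InjOn (Nat.count Nat.Prime) ((Ioc x y).filter Nat.Prime : Finset ℕ) := by
    intro p hp q hq hpq
    have hp' := (Finset.mem_filter.1 (Finset.mem_coe.1 hp)).2
    have hq' := (Finset.mem_filter.1 (Finset.mem_coe.1 hq)).2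
    rw [← pp_count p hp', ← pp_count q hq', hpq]
  have hsub : ((Ioc x y).filter Nat.Prime).image (Nat.count Nat.Prime) ⊆ range n := by
    intro i hi
    obtain ⟨p, hp, rfl⟩ := Finset.mem_image.1 hi
    have hp' := (Finset.mem_filter.1 hp).2
    have hpy := (Finset.mem_Ioc.1 (Finset.mem_filter.1 hp).1).2
    rw [Finset.mem_range]
    have h3 : pp (Nat.count Nat.Prime p) < pp n := by
      rw [pp_count p hp']
      exact lt_of_le_of_lt hpy hy
    exact (Nat.nth_strictMono Nat.infinite_setOf_prime).lt_iff_lt.1 h3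
  rw [Finset.mul_sum]
  calc ∑ p ∈ (Ioc x y).filter Nat.Prime, (1 / 20) * ((1 : ℝ) / p)
      ≤ ∑ p ∈ (Ioc x y).filter Nat.Prime,
        (rr s (Nat.count Nat.Prime p) - rr t (Nat.count Nat.Prime p)) ^ 2 := by
        refine Finset.sum_le_sum fun p hp => ?_
        have hp' := (Finset.mem_filter.1 hp).2
        have hpxy := Finset.mem_Ioc.1 (Finset.mem_filter.1 hp).1
        have h3 := term (Nat.count Nat.Prime p) s t hs ht
        rw [pp_count p hp'] at h3
        exact h3 (h1 p hpxy.1) (h2 p hp'.one_le hpxy.2)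
    _ = ∑ i ∈ ((Ioc x y).filter Nat.Prime).image (Nat.count Nat.Prime), (rr s i - rr t i) ^ 2 :=
        (Finset.sum_image (f := fun i => (rr s i - rr t i) ^ 2) hinj).symm
    _ ≤ ∑ i ∈ range n, (rr s i - rr t i) ^ 2 :=
        Finset.sum_le_sum_of_subset_of_nonneg hsub fun _ _ _ => sq_nonneg _

end PkgDDL

open PkgDDL in
theorem T_DDL : P_DDL := by
  obtain ⟨C₁, hC₁, hM⟩ := Pool.Agent.Helper559.mertens
  refine ⟨8 * Real.exp C₁, by positivity, fun n s t hs hst ht1 => ?_⟩
  have ht : 0 < t := lt_of_lt_of_le hs hst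
  have hpn : (2 : ℝ) ≤ (pp n : ℝ) := by exact_mod_cast (pp_prime n).two_le
  have hlog2 : 0 < Real.log (pp n) := Real.log_pos (by linarith)
  set L := min (Real.log (pp n)) (1 / s) with hL
  have hL0 : 0 < L := lt_min hlog2 (by positivity)
  have hZ0 : 0 < t * L := mul_pos ht hL0
  have hDD0 : 0 ≤ DD n s t := Finset.sum_nonneg fun _ _ => sq_nonneg _
  have hexp1 : 1 ≤ Real.exp C₁ := Real.one_le_exp hC₁.le
  have hrp : (t * L) ^ (-(1 / 100) : ℝ) = Real.exp (-(1 / 100) * Real.log (t * L)) := by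
    rw [Real.rpow_def_of_pos hZ0, mul_comm]
  rw [hrp]
  have h8 : Real.log 8 ≤ 8 := by
    have := Real.log_le_sub_one_of_pos (x := 8) (by norm_num)
    linarith
  have hl8 : (1 : ℝ) ≤ 8 * Real.exp (-(1 / 100) * Real.log 8) := by
    have h1 : Real.exp (-(1 / 100) * 8) ≤ Real.exp (-(1 / 100) * Real.log 8) :=
      Real.exp_le_exp.2 (by linarith)
    have h2 := Real.add_one_le_exp (-(1 / 100) * 8 : ℝ)
    linarith
  rcases le_or_gt (t * L) 8 with hZ | hZ
  · have h1 : Real.exp (-(DD n s t) / 4) ≤ 1 := Real.exp_le_one_iff.2 (by linarith)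
    have h2 : Real.exp (-(1 / 100) * Real.log 8) ≤ Real.exp (-(1 / 100) * Real.log (t * L)) := by
      have := Real.log_le_log hZ0 hZ
      exact Real.exp_le_exp.2 (by linarith)
    have h3 : 8 * Real.exp (-(1 / 100) * Real.log 8) ≤
        8 * Real.exp C₁ * Real.exp (-(1 / 100) * Real.log (t * L)) := by
      have h4 : 8 * Real.exp (-(1 / 100) * Real.log 8) ≤
          8 * Real.exp (-(1 / 100) * Real.log (t * L)) := by linarith
      have h5 : 0 < Real.exp (-(1 / 100) * Real.log (t * L)) := Real.exp_pos _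
      nlinarith
    linarith
  · -- main case
    have hL8 : 8 / t ≤ L := by
      rw [div_le_iff₀ ht]
      linarith
    have h1t : 1 ≤ 1 / t := by
      rw [le_div_iff₀ ht]
      linarith
    have h8t : 8 / t = 8 * (1 / t) := by ring
    have h2t : 2 / t = 2 * (1 / t) := by ring
    have hLge : 8 ≤ L := by linarith
    set x := ⌊Real.exp (2 / t)⌋₊ with hx
    set y := ⌊Real.exp L / 2⌋₊ with hy
    have hy1 : (y : ℝ) ≤ Real.exp L / 2 := Nat.floor_le (by positivity)
    have hx1 : (x : ℝ) ≤ Real.exp (2 / t) := Nat.floor_le (by positivity)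
    have hexpL : Real.exp L ≤ pp n := by
      have h := Real.exp_le_exp.2 (min_le_left (Real.log (pp n)) (1 / s))
      rwa [Real.exp_log (by linarith)] at h
    have hyn : y < pp n := by
      have : (y : ℝ) < pp n := by
        have := Real.exp_pos L
        linarith
      exact_mod_cast this
    have hx2 : 2 ≤ x := by
      refine Nat.le_floor ?_
      have := Real.add_one_le_exp (2 / t)
      push_cast
      linarith
    have hx0 : (0 : ℝ) < x := by exact_mod_cast (by omega : 0 < x)
    have hlogx : Real.log x ≤ 2 / t := by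
      have := Real.log_le_log hx0 hx1
      rwa [Real.log_exp] at this
    -- lower bound for log y
    have hexpL9 : 9 ≤ Real.exp L := by
      have := Real.add_one_le_exp L
      linarith
    have hyge : Real.exp L / 4 ≤ y := by
      have := Nat.lt_floor_add_one (Real.exp L / 2)
      linarith
    have hlog4 : Real.log 4 ≤ 3 := by
      have := Real.log_le_sub_one_of_pos (x := 4) (by norm_num)
      linarith
    have hlogy : L / 2 ≤ Real.log y := by
      have h1 : Real.log (Real.exp L / 4) ≤ Real.log y := Real.log_le_log (by positivity) hyge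
      rw [Real.log_div (by positivity) (by norm_num), Real.log_exp] at h1
      linarith
    have hxy : x ≤ y := by
      have h1 : Real.log x < Real.log y := by linarith
      have h2 : (x : ℝ) < y := (Real.log_lt_log_iff hx0 (by linarith)).1 h1
      exact_mod_cast h2.le
    have hDD := DD_ge n x y s t hs ht hyn (by
      intro p hp
      have h1 : Real.exp (2 / t) ≤ p := (Nat.floor_lt (by positivity)).1 hp |>.le
      have h2 := Real.log_le_log (Real.exp_pos _) h1
      rw [Real.log_exp] at h2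
      calc 2 = t * (2 / t) := by field_simp
        _ ≤ t * Real.log p := mul_le_mul_of_nonneg_left h2 ht.le) (by
      intro p hp1 hp
      have h0 : (0 : ℝ) < p := by exact_mod_cast hp1
      have h1 : (p : ℝ) ≤ Real.exp (1 / s) := by
        have h2 : (p : ℝ) ≤ y := by exact_mod_cast hp
        have h3 : Real.exp L ≤ Real.exp (1 / s) := Real.exp_le_exp.2 (min_le_right _ _)
        have := Real.exp_pos L
        linarith
      have h2 := Real.log_le_log h0 h1
      rw [Real.log_exp] at h2
      calc s * Real.log p ≤ s * (1 / s) := mul_le_mul_of_nonneg_left h2 hs.le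
        _ = 1 := by field_simp)
    have hsplit := S_split x y hxy
    have hMx := abs_le.1 (hM x hx2)
    have hMy := abs_le.1 (hM y (by omega))
    have hlx0 : 0 < Real.log x := Real.log_pos (by exact_mod_cast (by omega : 1 < x))
    have hllx : Real.log (Real.log x) ≤ Real.log (2 / t) := Real.log_le_log hlx0 hlogx
    have hlly : Real.log (L / 2) ≤ Real.log (Real.log y) := Real.log_le_log (by positivity) hlogy
    have hdiff : Real.log (L / 2) - Real.log (2 / t) = Real.log (t * L) - Real.log 4 := by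
      rw [← Real.log_div (by positivity) (by positivity),
        ← Real.log_div (by positivity) (by norm_num)]
      congr 1
      field_simp
      ring
    have hsum : Real.log (t * L) - Real.log 4 - 2 * C₁ ≤
        ∑ p ∈ (Ioc x y).filter Nat.Prime, (1 : ℝ) / p := by linarith [hMx.1, hMx.2, hMy.1, hMy.2]
    have hlogZ : Real.log 4 ≤ Real.log (t * L) := Real.log_le_log (by norm_num) (by linarith)
    have hfin : -(DD n s t) / 4 ≤ -(1 / 100) * Real.log (t * L) + 1 + C₁ := by linarith
    calc Real.exp (-(DD n s t) / 4) ≤ Real.exp (-(1 / 100) * Real.log (t * L) + 1 + C₁) :=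
          Real.exp_le_exp.2 hfin
      _ = Real.exp 1 * Real.exp C₁ * Real.exp (-(1 / 100) * Real.log (t * L)) := by
          rw [← Real.exp_add, ← Real.exp_add]
          congr 1
          ring
      _ ≤ 8 * Real.exp C₁ * Real.exp (-(1 / 100) * Real.log (t * L)) := by
          have h1 := Real.exp_one_lt_d9
          refine mul_le_mul_of_nonneg_right (mul_le_mul_of_nonneg_right ?_ (Real.exp_pos _).le)
            (Real.exp_pos _).le
          linarith

end Pool.Agent.T2H19.HD
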