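import Pool.Agent.T2H19.HD.Stm

set_option autoImplicit false

namespace Pool.Agent.T2H19.HD

open Finset Filter Topology MeasureTheory

namespace PkgGGB

/-- the coefficients of `(1 - x)^(-1/2)` -/
noncomputable def b : ℕ → ℝ
  | 0 => 1
  | n + 1 => b n * ((2 * n + 1) / (2 * n + 2))

lemma b_nonneg (n : ℕ) : 0 ≤ b n := by
  induction n with
  | zero => simp [b]
  | succ n ih =>
    rw [b]
    positivity

lemma b_succ (n : ℕ) : ((n : ℝ) + 1) * b (n + 1) = (n + 1 / 2) * b n := by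
  rw [b]
  field_simp

lemma conv (n : ℕ) : ∑ p ∈ antidiagonal n, b p.1 * b p.2 = 1 := by
  induction n with
  | zero => simp [b]
  | succ n ih =>
    have hsw : ∀ m : ℕ, ∑ p ∈ antidiagonal m, (p.2 : ℝ) * (b p.1 * b p.2) =
        ∑ p ∈ antidiagonal m, (p.1 : ℝ) * (b p.1 * b p.2) := by
      intro m
      rw [← Finset.Nat.sum_antidiagonal_swap]
      refine Finset.sum_congr rfl fun p _ => ?_
      simp only [Prod.fst_swap, Prod.snd_swap]
      ring
    have hadd : ∀ m : ℕ, ∑ p ∈ antidiagonal m, (p.1 : ℝ) * (b p.1 * b p.2) +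
        ∑ p ∈ antidiagonal m, (p.2 : ℝ) * (b p.1 * b p.2) =
        m * ∑ p ∈ antidiagonal m, b p.1 * b p.2 := by
      intro m
      rw [← Finset.sum_add_distrib, Finset.mul_sum]
      refine Finset.sum_congr rfl fun p hp => ?_
      rw [HasAntidiagonal.mem_antidiagonal] at hp
      rw [← hp]
      push_cast
      ring
    have h1 := hadd (n + 1)
    rw [hsw] at h1
    have h2 := hadd n
    rw [hsw, ih] at h2
    have h3 : ∑ p ∈ antidiagonal (n + 1), (p.1 : ℝ) * (b p.1 * b p.2) =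
        ∑ p ∈ antidiagonal n, ((p.1 : ℝ) * (b p.1 * b p.2) + 1 / 2 * (b p.1 * b p.2)) := by
      rw [Finset.Nat.sum_antidiagonal_succ]
      simp only [Nat.cast_zero, zero_mul, zero_add]
      refine Finset.sum_congr rfl fun p _ => ?_
      have := b_succ p.1
      push_cast
      linear_combination (b p.2) * this
    rw [Finset.sum_add_distrib, ← Finset.mul_sum, ih] at h3
    rw [h3] at h1
    have h4 : ((n + 1 : ℕ) : ℝ) ≠ 0 := by positivity
    have h5 : ((n + 1 : ℕ) : ℝ) * ∑ p ∈ antidiagonal (n + 1), b p.1 * b p.2 =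
        ((n + 1 : ℕ) : ℝ) * 1 := by
      rw [← h1]
      push_cast
      linarith
    exact mul_left_cancel₀ h4 h5

lemma b_le_one (n : ℕ) : b n ≤ 1 := by
  rw [← conv n]
  have h := Finset.single_le_sum (f := fun p : ℕ × ℕ => b p.1 * b p.2)
    (fun p _ => mul_nonneg (b_nonneg _) (b_nonneg _)) (a := (0, n)) (s := antidiagonal n)
    (by simp)
  simpa [b] using h

/-- the sum of the series -/
noncomputable def h (x : ℂ) : ℂ := ∑' n : ℕ, (b n : ℂ) * x ^ n

lemma summ (x : ℂ) (hx : ‖x‖ < 1) : Summable fun n : ℕ => ‖(b n : ℂ) * x ^ n‖ := by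
  refine Summable.of_nonneg_of_le (fun n => norm_nonneg _) (fun n => ?_)
    (summable_geometric_of_lt_one (norm_nonneg x) hx)
  rw [norm_mul, norm_pow, Complex.norm_real, Real.norm_eq_abs, abs_of_nonneg (b_nonneg n)]
  exact mul_le_of_le_one_left (by positivity) (b_le_one n)

lemma h_mul (x y : ℂ) (hx : ‖x‖ < 1) (hy : ‖y‖ < 1) : h x * h y =
    ∑' n : ℕ, ∑ p ∈ antidiagonal n, ((b p.1 : ℂ) * x ^ p.1) * ((b p.2 : ℂ) * y ^ p.2) :=
  tsum_mul_tsum_eq_tsum_sum_antidiagonal_of_summable_norm (summ x hx) (summ y hy)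

lemma h_sq (x : ℂ) (hx : ‖x‖ < 1) : h x * h x = (1 - x)⁻¹ := by
  rw [h_mul x x hx hx, ← tsum_geometric_of_norm_lt_one hx]
  refine tsum_congr fun n => ?_
  have : ∀ p ∈ antidiagonal n, ((b p.1 : ℂ) * x ^ p.1) * ((b p.2 : ℂ) * x ^ p.2) =
      x ^ n * ((b p.1 * b p.2 : ℝ) : ℂ) := by
    intro p hp
    rw [HasAntidiagonal.mem_antidiagonal] at hp
    rw [← hp, pow_add]
    push_cast
    ring
  rw [Finset.sum_congr rfl this, ← Finset.mul_sum, ← Complex.ofReal_sum, conv]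
  simp

lemma norm_h (x : ℂ) (hx : ‖x‖ < 1) : ‖h x‖ ^ 2 = ‖1 - x‖⁻¹ := by
  rw [sq, ← norm_mul, h_sq x hx, norm_inv]

lemma zz_norm (θ : UnitAddCircle) : ‖zz θ‖ = 1 := by
  unfold zz
  simp [fourier_apply]

lemma zz_pow (θ : UnitAddCircle) (n : ℕ) : zz θ ^ n = fourier (n : ℤ) θ := by
  unfold zz
  induction n with
  | zero => simp
  | succ n ih =>
    rw [pow_succ, ih, ← fourier_add]
    push_cast
    rfl

lemma vol_eq : (volume : Measure UnitAddCircle) = AddCircle.haarAddCircle := by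
  have h := AddCircle.volume_eq_smul_haarAddCircle (T := (1 : ℝ))
  rw [h]
  simp

lemma int_four (k : ℤ) : ∫ θ : UnitAddCircle, (fourier k θ : ℂ) = if k = 0 then 1 else 0 := by
  have h1 := congrFun (fourierCoeff_fourier (T := (1 : ℝ)) k) 0
  unfold fourierCoeff at h1
  simp only [neg_zero, fourier_zero, one_smul] at h1
  rw [vol_eq, h1, Pi.single_apply]
  by_cases hk : k = 0
  · simp [hk]
  · rw [if_neg hk, if_neg (fun h => hk h.symm)]

lemma zz_cont : Continuous zz := by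
  unfold zz
  exact (fourier 1).continuous

lemma pars (c : ℕ → ℝ) (N : ℕ) :
    ∫ θ : UnitAddCircle, ‖∑ n ∈ range N, (c n : ℂ) * zz θ ^ n‖ ^ 2 = ∑ n ∈ range N, c n ^ 2 := by
  have key : ∀ θ : UnitAddCircle, ((‖∑ n ∈ range N, (c n : ℂ) * zz θ ^ n‖ ^ 2 : ℝ) : ℂ) =
      ∑ n ∈ range N, ∑ m ∈ range N, ((c n * c m : ℝ) : ℂ) * fourier ((n : ℤ) - m) θ := by
    intro θ
    have e : ∀ z : ℂ, ((‖z‖ ^ 2 : ℝ) : ℂ) = z * (starRingEnd ℂ) z := by
      intro z
      rw [Complex.mul_conj, Complex.normSq_eq_norm_sq]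
    rw [e, map_sum, Finset.sum_mul_sum]
    refine Finset.sum_congr rfl fun n _ => Finset.sum_congr rfl fun m _ => ?_
    rw [map_mul, Complex.conj_ofReal, zz_pow, zz_pow, ← fourier_neg, sub_eq_add_neg, fourier_add]
    push_cast
    ring
  have hc : ∀ (n m : ℕ), Integrable (fun θ : UnitAddCircle =>
      ((c n * c m : ℝ) : ℂ) * fourier ((n : ℤ) - m) θ) := by
    intro n m
    have hcont : Continuous (fun θ : UnitAddCircle =>
        ((c n * c m : ℝ) : ℂ) * fourier ((n : ℤ) - m) θ) :=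
      continuous_const.mul (fourier ((n : ℤ) - m)).continuous
    exact hcont.integrable_of_hasCompactSupport (HasCompactSupport.of_compactSpace _)
  have h1 : ((∫ θ : UnitAddCircle, ‖∑ n ∈ range N, (c n : ℂ) * zz θ ^ n‖ ^ 2 : ℝ) : ℂ) =
      ((∑ n ∈ range N, c n ^ 2 : ℝ) : ℂ) := by
    rw [← integral_complex_ofReal]
    simp only [key]
    rw [integral_finset_sum _ (fun n _ => integrable_finset_sum _ fun m _ => hc n m)]
    rw [Complex.ofReal_sum]
    refine Finset.sum_congr rfl fun n hn => ?_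
    rw [integral_finset_sum _ (fun m _ => hc n m)]
    have h2 : ∀ m ∈ range N, ∫ θ : UnitAddCircle, ((c n * c m : ℝ) : ℂ) * fourier ((n : ℤ) - m) θ =
        if n = m then ((c n ^ 2 : ℝ) : ℂ) else 0 := by
      intro m _
      rw [integral_const_mul, int_four]
      by_cases hnm : n = m
      · subst hnm
        simp [sq]
      · rw [if_neg hnm, if_neg (by omega), mul_zero]
    rw [Finset.sum_congr rfl h2, Finset.sum_ite_eq, if_pos hn]
  exact_mod_cast h1

lemma pars_le (c : ℕ → ℝ) (hc : Summable fun n => |c n|) (B : ℝ)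
    (hB : ∀ N, ∑ n ∈ range N, c n ^ 2 ≤ B) :
    ∫ θ : UnitAddCircle, ‖∑' n : ℕ, (c n : ℂ) * zz θ ^ n‖ ^ 2 ≤ B := by
  have hnorm : ∀ (θ : UnitAddCircle) (n : ℕ), ‖(c n : ℂ) * zz θ ^ n‖ = |c n| := by
    intro θ n
    rw [norm_mul, norm_pow, zz_norm, one_pow, mul_one, Complex.norm_real, Real.norm_eq_abs]
  have hsum : ∀ θ : UnitAddCircle, Summable fun n : ℕ => (c n : ℂ) * zz θ ^ n := by
    intro θ
    refine Summable.of_norm ?_
    simp only [hnorm]
    exact hc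
  have hT : Tendsto (fun N : ℕ => ∫ θ : UnitAddCircle, ‖∑ n ∈ range N, (c n : ℂ) * zz θ ^ n‖ ^ 2)
      atTop (𝓝 (∫ θ : UnitAddCircle, ‖∑' n : ℕ, (c n : ℂ) * zz θ ^ n‖ ^ 2)) := by
    refine tendsto_integral_of_dominated_convergence (fun _ => (∑' n, |c n|) ^ 2) ?_ ?_ ?_ ?_
    · intro N
      have hcont : Continuous (fun θ : UnitAddCircle =>
          ‖∑ n ∈ range N, (c n : ℂ) * zz θ ^ n‖ ^ 2) := by
        have := zz_cont
        fun_prop
      exact hcont.aestronglyMeasurable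
    · exact integrable_const _
    · intro N
      refine Eventually.of_forall fun θ => ?_
      rw [norm_pow, norm_norm]
      refine pow_le_pow_left₀ (norm_nonneg _) ?_ 2
      refine (norm_sum_le _ _).trans ?_
      simp only [hnorm]
      exact hc.sum_le_tsum _ (fun n _ => abs_nonneg _)
    · refine Eventually.of_forall fun θ => ?_
      exact ((hsum θ).hasSum.tendsto_sum_nat.norm).pow 2
  refine le_of_tendsto hT (Eventually.of_forall fun N => ?_)
  rw [pars]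
  exact hB N

/-- the coefficients of `h (r z) h (s z)` -/
noncomputable def cc (r s : ℝ) (n : ℕ) : ℝ :=
  ∑ p ∈ antidiagonal n, (b p.1 * r ^ p.1) * (b p.2 * s ^ p.2)

lemma cc_nonneg (r s : ℝ) (hs : 0 ≤ s) (hr : 0 ≤ r) (n : ℕ) : 0 ≤ cc r s n :=
  Finset.sum_nonneg fun p _ => mul_nonneg (mul_nonneg (b_nonneg _) (pow_nonneg hr _))
    (mul_nonneg (b_nonneg _) (pow_nonneg hs _))

lemma cc_le (r s : ℝ) (hs : 0 ≤ s) (hsr : s ≤ r) (n : ℕ) : cc r s n ≤ r ^ n := by
  have hr : 0 ≤ r := hs.trans hsr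
  have h1 : r ^ n = ∑ p ∈ antidiagonal n, r ^ n * (b p.1 * b p.2) := by
    rw [← Finset.mul_sum, conv, mul_one]
  rw [h1]
  unfold cc
  refine Finset.sum_le_sum fun p hp => ?_
  rw [HasAntidiagonal.mem_antidiagonal] at hp
  rw [← hp, pow_add]
  have h2 : s ^ p.2 ≤ r ^ p.2 := pow_le_pow_left₀ hs hsr _
  have h3 := b_nonneg p.1
  have h4 := b_nonneg p.2
  have h5 : 0 ≤ r ^ p.1 := pow_nonneg hr _
  calc b p.1 * r ^ p.1 * (b p.2 * s ^ p.2) = (b p.1 * b p.2 * r ^ p.1) * s ^ p.2 := by ring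
    _ ≤ (b p.1 * b p.2 * r ^ p.1) * r ^ p.2 :=
        mul_le_mul_of_nonneg_left h2 (by positivity)
    _ = _ := by ring

lemma cc_zero (r s : ℝ) : cc r s 0 = 1 := by simp [cc, b]

lemma cc_one (r s : ℝ) : cc r s 1 = (r + s) / 2 := by
  unfold cc
  rw [Finset.Nat.sum_antidiagonal_succ]
  simp [b]
  ring

end PkgGGB

open PkgGGB in
theorem T_GGB : P_GGB := by
  intro r s hs hsr hr2
  have hr : 0 ≤ r := hs.trans hsr
  have hr1 : r < 1 := by nlinarith
  have hs1 : s < 1 := lt_of_le_of_lt hsr hr1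
  have hs2 : s ^ 2 ≤ 1 / 2 := (pow_le_pow_left₀ hs hsr 2).trans hr2
  have hrz : ∀ θ : UnitAddCircle, ‖(r : ℂ) * zz θ‖ < 1 := by
    intro θ
    rw [norm_mul, zz_norm, mul_one, Complex.norm_real, Real.norm_eq_abs, abs_of_nonneg hr]
    exact hr1
  have hsz : ∀ θ : UnitAddCircle, ‖(s : ℂ) * zz θ‖ < 1 := by
    intro θ
    rw [norm_mul, zz_norm, mul_one, Complex.norm_real, Real.norm_eq_abs, abs_of_nonneg hs]
    exact hs1
  have hPK : ∀ (t : ℝ), 0 ≤ t → t < 1 → ∀ θ : UnitAddCircle, ‖(t : ℂ) * zz θ‖ < 1 →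
      √(PK t θ) = √(1 - t ^ 2) * ‖h ((t : ℂ) * zz θ)‖ ^ 2 := by
    intro t ht ht1 θ hθ
    unfold PK
    rw [norm_h _ hθ, Real.sqrt_div (by nlinarith), Real.sqrt_sq (norm_nonneg _), div_eq_mul_inv]
  have hF : ∀ θ : UnitAddCircle, h ((r : ℂ) * zz θ) * h ((s : ℂ) * zz θ) =
      ∑' n : ℕ, ((cc r s n : ℝ) : ℂ) * zz θ ^ n := by
    intro θ
    rw [h_mul _ _ (hrz θ) (hsz θ)]
    refine tsum_congr fun n => ?_
    unfold cc
    rw [Complex.ofReal_sum, Finset.sum_mul]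
    refine Finset.sum_congr rfl fun p hp => ?_
    rw [HasAntidiagonal.mem_antidiagonal] at hp
    rw [← hp, pow_add, mul_pow, mul_pow]
    push_cast
    ring
  have hGG : GG r s = √(1 - r ^ 2) * √(1 - s ^ 2) *
      ∫ θ : UnitAddCircle, ‖∑' n : ℕ, ((cc r s n : ℝ) : ℂ) * zz θ ^ n‖ ^ 2 := by
    unfold GG
    rw [← integral_const_mul]
    refine integral_congr_ae (Eventually.of_forall fun θ => ?_)
    simp only
    rw [hPK r hr hr1 θ (hrz θ), hPK s hs hs1 θ (hsz θ), ← hF θ, norm_mul]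
    ring
  have hsumc : Summable fun n => |cc r s n| := by
    refine Summable.of_nonneg_of_le (fun n => abs_nonneg _) (fun n => ?_)
      (summable_geometric_of_lt_one hr hr1)
    rw [abs_of_nonneg (cc_nonneg r s hs hr n)]
    exact cc_le r s hs hsr n
  have hB : ∀ N, ∑ n ∈ range N, cc r s n ^ 2 ≤ 1 + (r + s) ^ 2 / 4 + 2 * r ^ 4 := by
    intro N
    have h1 : ∑ n ∈ range N, cc r s n ^ 2 ≤ ∑ n ∈ range (N + 2), cc r s n ^ 2 :=
      Finset.sum_le_sum_of_subset_of_nonneg (Finset.range_mono (by omega))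
        (fun n _ _ => by positivity)
    refine h1.trans ?_
    rw [Finset.sum_range_succ', Finset.sum_range_succ', cc_zero, cc_one]
    have h2 : ∑ k ∈ range N, cc r s (k + 1 + 1) ^ 2 ≤ ∑ k ∈ range N, r ^ 4 * (1 / 2 : ℝ) ^ k := by
      refine Finset.sum_le_sum fun k _ => ?_
      have h3 := cc_le r s hs hsr (k + 1 + 1)
      have h4 := pow_le_pow_left₀ (cc_nonneg r s hs hr (k + 1 + 1)) h3 2
      refine h4.trans ?_
      have h5 : (r ^ (k + 1 + 1)) ^ 2 = r ^ 4 * (r ^ 2) ^ k := by ring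
      rw [h5]
      exact mul_le_mul_of_nonneg_left (pow_le_pow_left₀ (by positivity) hr2 k) (by positivity)
    have h3 : ∑ k ∈ range N, (1 / 2 : ℝ) ^ k ≤ 2 := by
      have h4 := (summable_geometric_of_lt_one (r := (1 / 2 : ℝ)) (by norm_num) (by norm_num)).sum_le_tsum
        (range N) (fun n _ => by positivity)
      rw [tsum_geometric_of_lt_one (by norm_num) (by norm_num)] at h4
      norm_num at h4 ⊢
      exact h4
    rw [← Finset.mul_sum] at h2
    have h4 : r ^ 4 * ∑ k ∈ range N, (1 / 2 : ℝ) ^ k ≤ r ^ 4 * 2 :=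
      mul_le_mul_of_nonneg_left h3 (by positivity)
    nlinarith
  have hint := pars_le _ hsumc _ hB
  have hexp : ∀ t : ℝ, √(1 - t ^ 2) ≤ Real.exp (-(t ^ 2) / 2) := by
    intro t
    refine Real.sqrt_le_iff.2 ⟨(Real.exp_pos _).le, ?_⟩
    rw [← Real.exp_nat_mul]
    have h1 := Real.add_one_le_exp (-(t ^ 2))
    have h2 : (((2 : ℕ) : ℝ) * (-(t ^ 2) / 2)) = -(t ^ 2) := by
      push_cast
      ring
    rw [h2]
    linarith
  rw [hGG]
  have hi2 : ∫ θ : UnitAddCircle, ‖∑' n : ℕ, ((cc r s n : ℝ) : ℂ) * zz θ ^ n‖ ^ 2 ≤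
      Real.exp ((r + s) ^ 2 / 4 + 2 * r ^ 4) := by
    refine hint.trans ?_
    have := Real.add_one_le_exp ((r + s) ^ 2 / 4 + 2 * r ^ 4)
    linarith
  have hi0 : 0 ≤ ∫ θ : UnitAddCircle, ‖∑' n : ℕ, ((cc r s n : ℝ) : ℂ) * zz θ ^ n‖ ^ 2 :=
    integral_nonneg fun θ => by positivity
  calc √(1 - r ^ 2) * √(1 - s ^ 2) *
      ∫ θ : UnitAddCircle, ‖∑' n : ℕ, ((cc r s n : ℝ) : ℂ) * zz θ ^ n‖ ^ 2
      ≤ (Real.exp (-(r ^ 2) / 2) * Real.exp (-(s ^ 2) / 2)) *
        Real.exp ((r + s) ^ 2 / 4 + 2 * r ^ 4) := by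
        refine mul_le_mul ?_ hi2 hi0 (by positivity)
        exact mul_le_mul (hexp r) (hexp s) (Real.sqrt_nonneg _) (Real.exp_pos _).le
    _ = Real.exp (-(r - s) ^ 2 / 4 + 2 * r ^ 4) := by
        rw [← Real.exp_add, ← Real.exp_add]
        congr 1
        ring

end Pool.Agent.T2H19.HD
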