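import Pool.Agent.T2H19.HD.Stm

/-! # Package MUA: a finite Euler product is at most `1 + 1/(2σ)` -/

set_option autoImplicit false

namespace Pool.Agent.T2H19.HD

open Finset Filter Topology MeasureTheory

namespace PkgMUA

lemma step {a : ℝ} (ha : 0 < a) {n : ℕ} (hn : 1 ≤ n) :
    (((n + 1 : ℕ) : ℝ)) ^ (-(1 + a)) ≤ (1 / a) * ((n : ℝ) ^ (-a) - (((n + 1 : ℕ) : ℝ)) ^ (-a)) := by
  have hn0 : (0 : ℝ) < n := by exact_mod_cast hn
  set m : ℝ := ((n + 1 : ℕ) : ℝ) with hm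
  have hm0 : 0 < m := by rw [hm]; positivity
  have hmn : (n : ℝ) = m * (1 - 1 / m) := by
    rw [hm]; push_cast; field_simp; ring
  have hy : 1 / m < 1 := by
    rw [div_lt_one hm0, hm]; push_cast; linarith
  have hy1 : 0 < 1 - 1 / m := by linarith
  have h1 : 1 + a / m ≤ (1 - 1 / m) ^ (-a) := by
    rw [Real.rpow_def_of_pos hy1]
    have h2 : Real.log (1 - 1 / m) ≤ -(1 / m) := by
      have := Real.log_le_sub_one_of_pos hy1
      linarith
    have h3 : a / m ≤ Real.log (1 - 1 / m) * -a := by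
      have h4 := mul_le_mul_of_nonneg_left h2 ha.le
      have h5 : a / m = a * (1 / m) := by ring
      rw [h5]; linarith
    calc 1 + a / m ≤ Real.exp (a / m) := by linarith [Real.add_one_le_exp (a / m)]
      _ ≤ _ := Real.exp_le_exp.2 h3
  have h6 : (n : ℝ) ^ (-a) = m ^ (-a) * (1 - 1 / m) ^ (-a) := by
    conv_lhs => rw [hmn]
    rw [Real.mul_rpow hm0.le hy1.le]
  have h7 : m ^ (-(1 + a)) = m ^ (-a) / m := by
    rw [show -(1 + a) = -a - 1 by ring, Real.rpow_sub_one hm0.ne']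
  have h8 : 0 < m ^ (-a) := Real.rpow_pos_of_pos hm0 _
  rw [h6, h7]
  have h9 : m ^ (-a) * (1 + a / m) ≤ m ^ (-a) * (1 - 1 / m) ^ (-a) :=
    mul_le_mul_of_nonneg_left h1 h8.le
  have h10 : m ^ (-a) / m = (1 / a) * (m ^ (-a) * (1 + a / m) - m ^ (-a)) := by
    field_simp
    ring
  rw [h10]
  exact mul_le_mul_of_nonneg_left (by linarith) (by positivity)

lemma partial_le {a : ℝ} (ha : 0 < a) (N : ℕ) :
    ∑ k ∈ range (N + 2), (k : ℝ) ^ (-(1 + a)) ≤ 1 + 1 / a - (1 / a) * (((N + 1 : ℕ) : ℝ)) ^ (-a) := by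
  induction N with
  | zero =>
    rw [Finset.sum_range_succ, Finset.sum_range_succ, Finset.sum_range_zero]
    have h1 : ((0 : ℕ) : ℝ) ^ (-(1 + a)) = 0 := by
      rw [Nat.cast_zero, Real.zero_rpow (by linarith)]
    rw [h1]
    simp
  | succ N ih =>
    rw [Finset.sum_range_succ]
    have h1 := step ha (n := N + 1) (by omega)
    have h2 : ((N + 2 : ℕ) : ℝ) = ((N + 1 + 1 : ℕ) : ℝ) := by push_cast; ring
    rw [h2]
    have h3 : (1 / a) * ((((N + 1 : ℕ) : ℝ)) ^ (-a) - (((N + 1 + 1 : ℕ) : ℝ)) ^ (-a)) =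
      (1 / a) * (((N + 1 : ℕ) : ℝ)) ^ (-a) - (1 / a) * (((N + 1 + 1 : ℕ) : ℝ)) ^ (-a) := by ring
    linarith

lemma summ {a : ℝ} (ha : 0 < a) : Summable (fun k : ℕ => (k : ℝ) ^ (-(1 + a))) :=
  Real.summable_nat_rpow.2 (by linarith)

lemma tsum_le {a : ℝ} (ha : 0 < a) : ∑' k : ℕ, (k : ℝ) ^ (-(1 + a)) ≤ 1 + 1 / a := by
  refine (summ ha).tsum_le_of_sum_range_le (fun N => ?_)
  calc ∑ k ∈ range N, (k : ℝ) ^ (-(1 + a)) ≤ ∑ k ∈ range (N + 2), (k : ℝ) ^ (-(1 + a)) :=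
        Finset.sum_le_sum_of_subset_of_nonneg (Finset.range_mono (by omega))
          fun k _ _ => Real.rpow_nonneg (Nat.cast_nonneg k) _
    _ ≤ 1 + 1 / a - (1 / a) * (((N + 1 : ℕ) : ℝ)) ^ (-a) := partial_le ha N
    _ ≤ 1 + 1 / a := by
        have : 0 ≤ (1 / a) * (((N + 1 : ℕ) : ℝ)) ^ (-a) := by positivity
        linarith

/-- `n ↦ n^(-1-a)` -/
noncomputable def ff (a : ℝ) : ℕ →* ℝ where
  toFun n := (n : ℝ) ^ (-(1 + a))
  map_one' := by simp
  map_mul' m n := by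
    simp only [Nat.cast_mul]
    exact Real.mul_rpow (Nat.cast_nonneg m) (Nat.cast_nonneg n)

lemma image_pp (n : ℕ) : (range n).image pp = (pp n).primesBelow := by
  have hmono : StrictMono pp := Nat.nth_strictMono Nat.infinite_setOfPred_prime
  ext p
  rw [Finset.mem_image, Nat.mem_primesBelow]
  constructor
  · rintro ⟨i, hi, rfl⟩
    exact ⟨hmono (Finset.mem_range.1 hi), Nat.prime_nth_prime i⟩
  · rintro ⟨h1, h2⟩
    have h3 : pp (Nat.count Nat.Prime p) = p := Nat.nth_count h2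
    refine ⟨Nat.count Nat.Prime p, Finset.mem_range.2 ?_, h3⟩
    rw [← hmono.lt_iff_lt, h3]
    exact h1

end PkgMUA

open PkgMUA in
theorem T_MUA : P_MUA := by
  intro n σ hσ
  have ha : 0 < 2 * σ := by linarith
  have hmono : StrictMono pp := Nat.nth_strictMono Nat.infinite_setOfPred_prime
  have hlt : ∀ {p : ℕ}, p.Prime → ‖ff (2 * σ) p‖ < 1 := by
    intro p hp
    have h2 : (1 : ℝ) < p := by exact_mod_cast hp.one_lt
    change ‖(p : ℝ) ^ (-(1 + 2 * σ))‖ < 1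
    rw [Real.norm_eq_abs, abs_of_nonneg (Real.rpow_nonneg (Nat.cast_nonneg _) _)]
    exact Real.rpow_lt_one_of_one_lt_of_neg h2 (by linarith)
  obtain ⟨-, hsum⟩ := EulerProduct.summable_and_hasSum_smoothNumbers_prod_primesBelow_geometric
    (f := ff (2 * σ)) hlt (pp n)
  have h1 : mu n σ = ∏ p ∈ (pp n).primesBelow, (1 - ff (2 * σ) p)⁻¹ := by
    rw [← image_pp, Finset.prod_image (fun i _ j _ h => hmono.injective h)]
    unfold mu
    refine Finset.prod_congr rfl fun i _ => ?_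
    congr 2
    unfold rr
    change ((pp i : ℝ) ^ (-(1 / 2) - σ)) ^ 2 = (pp i : ℝ) ^ (-(1 + 2 * σ))
    rw [← Real.rpow_natCast, ← Real.rpow_mul (Nat.cast_nonneg _)]
    congr 1
    push_cast
    ring
  rw [h1, ← hsum.tsum_eq]
  have h2 : ∑' m : (pp n).smoothNumbers, ff (2 * σ) m ≤ ∑' k : ℕ, (k : ℝ) ^ (-(1 + 2 * σ)) := by
    exact (summ ha).tsum_subtype_le (fun k : ℕ => (k : ℝ) ^ (-(1 + 2 * σ))) _
      fun k => Real.rpow_nonneg (Nat.cast_nonneg k) _
  exact h2.trans (tsum_le ha)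

end Pool.Agent.T2H19.HD
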