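import Pool.Agent.T2H19.HD.Stm
import Pool.Agent.Erdos456.Mertens

/-! Project HD, package MUB: the Mertens upper bound. -/

set_option autoImplicit false

namespace Pool.Agent.T2H19.HD

open Finset Filter Topology MeasureTheory

namespace PkgMUB

lemma fac {x : ℝ} (_hx0 : 0 ≤ x) (hx : x ≤ 1 / 2) : (1 - x)⁻¹ ≤ Real.exp (x + 2 * x ^ 2) := by
  have h1 : 0 < 1 - x := by linarith
  have h2 : (1 - x)⁻¹ ≤ 1 + x + 2 * x ^ 2 := by
    have e : (1 - x)⁻¹ - 1 - x = x ^ 2 * (1 - x)⁻¹ := by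
      field_simp
      ring
    have e2 : x ^ 2 * (1 - x)⁻¹ ≤ x ^ 2 * 2 := by
      refine mul_le_mul_of_nonneg_left ?_ (by positivity)
      rw [inv_le_comm₀ h1 (by norm_num)]
      linarith
    linarith
  have h3 := Real.add_one_le_exp (x + 2 * x ^ 2)
  linarith

lemma pp_prime (i : ℕ) : (pp i).Prime := Nat.prime_nth_prime i

lemma pp_strict : StrictMono pp := Nat.nth_strictMono Nat.infinite_setOfPred_prime

lemma rr_sq {σ : ℝ} (hσ : 0 ≤ σ) (i : ℕ) : 0 ≤ rr σ i ^ 2 ∧ rr σ i ^ 2 ≤ 1 / (pp i : ℝ) := by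
  refine ⟨sq_nonneg _, ?_⟩
  have hp : (1 : ℝ) ≤ pp i := by exact_mod_cast (pp_prime i).one_lt.le
  have hp0 : (0 : ℝ) < pp i := by linarith
  have h1 : (1 : ℝ) / (pp i : ℝ) = (pp i : ℝ) ^ (-1 : ℝ) := by rw [Real.rpow_neg_one, one_div]
  unfold rr
  rw [h1, ← Real.rpow_natCast, ← Real.rpow_mul hp0.le]
  apply Real.rpow_le_rpow_of_exponent_le hp
  push_cast
  linarith

end PkgMUB

open PkgMUB in
theorem T_MUB : P_MUB := by
  obtain ⟨C, hC⟩ := Pool.Agent.Erdos456.Mert.mertens_inv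
  have hs : Summable (fun n : ℕ => 1 / (n : ℝ) ^ 2) := Real.summable_one_div_nat_pow.2 (by norm_num)
  obtain ⟨K, hK⟩ : ∃ K : ℝ, K = ∑' n : ℕ, 1 / (n : ℝ) ^ 2 := ⟨_, rfl⟩
  have hl2 : (0 : ℝ) < Real.log 2 := Real.log_pos (by norm_num)
  have hC0 : 0 ≤ C := (abs_nonneg _).trans (hC 3 le_rfl)
  have hK0 : 0 ≤ K := by rw [hK]; exact tsum_nonneg fun n => by positivity
  refine ⟨max (1 / Real.log 2) (Real.exp (C + 2 * K)), lt_max_of_lt_left (by positivity), ?_⟩
  intro n σ hσ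
  rcases Nat.eq_zero_or_pos n with h0 | hn
  · subst h0
    have h2 : pp 0 = 2 := Nat.nth_prime_zero_eq_two
    unfold mu
    rw [Finset.range_zero, Finset.prod_empty, h2]
    have : 1 / Real.log 2 * Real.log ((2 : ℕ) : ℝ) = 1 := by
      push_cast
      field_simp
    calc (1 : ℝ) = 1 / Real.log 2 * Real.log ((2 : ℕ) : ℝ) := this.symm
      _ ≤ _ := mul_le_mul_of_nonneg_right (le_max_left _ _) (by push_cast; exact hl2.le)
  · have h3 : 3 ≤ pp n := by
      have h2 : pp 0 = 2 := Nat.nth_prime_zero_eq_two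
      have := pp_strict hn
      omega
    have hlog : 0 < Real.log (pp n) := Real.log_pos (by exact_mod_cast (by omega : 1 < pp n))
    have hpt : ∀ i ∈ range n, (1 - rr σ i ^ 2)⁻¹ ≤
        Real.exp (1 / (pp i : ℝ) + 2 * (1 / (pp i : ℝ)) ^ 2) := by
      intro i _
      obtain ⟨h1, h2⟩ := rr_sq hσ i
      have hp2 : (2 : ℝ) ≤ pp i := by exact_mod_cast (pp_prime i).two_le
      have hh : 1 / (pp i : ℝ) ≤ 1 / 2 := one_div_le_one_div_of_le (by norm_num) hp2
      refine (fac h1 (h2.trans hh)).trans (Real.exp_le_exp.2 ?_)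
      have : (rr σ i ^ 2) ^ 2 ≤ (1 / (pp i : ℝ)) ^ 2 := pow_le_pow_left₀ h1 h2 2
      linarith
    have hprod : mu n σ ≤ Real.exp (∑ i ∈ range n, (1 / (pp i : ℝ) + 2 * (1 / (pp i : ℝ)) ^ 2)) := by
      unfold mu
      rw [Real.exp_sum]
      apply Finset.prod_le_prod _ hpt
      intro i _
      obtain ⟨h1, h2⟩ := rr_sq hσ i
      have hp2 : (2 : ℝ) ≤ pp i := by exact_mod_cast (pp_prime i).two_le
      have hh : 1 / (pp i : ℝ) ≤ 1 / 2 := one_div_le_one_div_of_le (by norm_num) hp2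
      rw [inv_nonneg]
      linarith
    have hinj : Set.InjOn pp (range n : Finset ℕ) := pp_strict.injective.injOn
    have hS1 : ∑ i ∈ range n, 1 / (pp i : ℝ) ≤ C + Real.log (Real.log (pp n)) := by
      have h1 : ∑ i ∈ range n, 1 / (pp i : ℝ) = ∑ p ∈ (range n).image pp, 1 / (p : ℝ) :=
        (Finset.sum_image (f := fun p : ℕ => 1 / (p : ℝ)) hinj).symm
      rw [h1]
      have h2 : (range n).image pp ⊆ (Finset.Icc 1 (pp n)).filter Nat.Prime := by
        intro p hp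
        obtain ⟨i, hi, rfl⟩ := Finset.mem_image.1 hp
        rw [Finset.mem_filter, Finset.mem_Icc]
        exact ⟨⟨(pp_prime i).one_lt.le, (pp_strict (Finset.mem_range.1 hi)).le⟩, pp_prime i⟩
      have h4 := Finset.sum_le_sum_of_subset_of_nonneg (f := fun p : ℕ => 1 / (p : ℝ)) h2
        fun p _ _ => by positivity
      have h5 := (abs_le.1 (hC (pp n) h3)).2
      linarith
    have hS2 : ∑ i ∈ range n, (1 / (pp i : ℝ)) ^ 2 ≤ K := by
      have h1 : ∑ i ∈ range n, (1 / (pp i : ℝ)) ^ 2 = ∑ p ∈ (range n).image pp, 1 / (p : ℝ) ^ 2 := by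
        rw [Finset.sum_image (f := fun p : ℕ => 1 / (p : ℝ) ^ 2) hinj]
        exact Finset.sum_congr rfl fun i _ => by rw [one_div_pow]
      rw [h1, hK]
      exact hs.sum_le_tsum _ fun p _ => by positivity
    have hsum : ∑ i ∈ range n, (1 / (pp i : ℝ) + 2 * (1 / (pp i : ℝ)) ^ 2) ≤
        C + 2 * K + Real.log (Real.log (pp n)) := by
      rw [Finset.sum_add_distrib, ← Finset.mul_sum]
      linarith
    calc mu n σ ≤ Real.exp (C + 2 * K + Real.log (Real.log (pp n))) :=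
          hprod.trans (Real.exp_le_exp.2 hsum)
      _ = Real.exp (C + 2 * K) * Real.log (pp n) := by
          rw [Real.exp_add, Real.exp_log hlog]
      _ ≤ _ := mul_le_mul_of_nonneg_right (le_max_right _ _) hlog.le

end Pool.Agent.T2H19.HD
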