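import Pool.Agent.T2H19.HD.Stm

set_option autoImplicit false

namespace Pool.Agent.T2H19.HD

open Finset Filter Topology MeasureTheory

namespace PkgSIG

/-- dyadic substitution -/
lemma dyad (G : ℝ → ℝ) (hG : Continuous G) (m : ℕ) :
    ∫ σ in ((1 / 2 : ℝ) ^ m)..1, G σ =
      ∫ u in (1 / 2 : ℝ)..1, ∑ J ∈ range m, (1 / 2 : ℝ) ^ J * G ((1 / 2 : ℝ) ^ J * u) := by
  induction m with
  | zero => simp
  | succ m ih =>
    have h1 : ∀ a b : ℝ, IntervalIntegrable G volume a b := fun a b => hG.intervalIntegrable a b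
    rw [← intervalIntegral.integral_add_adjacent_intervals (h1 _ ((1 / 2 : ℝ) ^ m)) (h1 _ _), ih]
    have h2 : ∫ σ in ((1 / 2 : ℝ) ^ (m + 1))..((1 / 2 : ℝ) ^ m), G σ =
        ∫ u in (1 / 2 : ℝ)..1, (1 / 2 : ℝ) ^ m * G ((1 / 2 : ℝ) ^ m * u) := by
      rw [intervalIntegral.integral_const_mul, intervalIntegral.mul_integral_comp_mul_left,
        pow_succ, mul_one]
    rw [h2, ← intervalIntegral.integral_add]
    · refine intervalIntegral.integral_congr fun u _ => ?_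
      rw [sum_range_succ]
      ring
    · exact Continuous.intervalIntegrable (by fun_prop) _ _
    · exact Continuous.intervalIntegrable (by fun_prop) _ _

lemma int_bound (G : ℝ → ℝ) (hG : Continuous G) (B : ℝ)
    (h : ∀ (m : ℕ) (u : ℝ), 1 / 2 ≤ u → u ≤ 1 →
      ∑ J ∈ range m, (1 / 2 : ℝ) ^ J * G ((1 / 2 : ℝ) ^ J * u) ≤ B) :
    ∫ σ in (0:ℝ)..1, G σ ≤ B / 2 := by
  have h1 : ∀ m : ℕ, ∫ σ in ((1 / 2 : ℝ) ^ m)..1, G σ ≤ B / 2 := by
    intro m
    rw [dyad G hG m]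
    calc _ ≤ ∫ _ in (1 / 2 : ℝ)..1, B := by
          apply intervalIntegral.integral_mono_on (by norm_num)
          · exact Continuous.intervalIntegrable (by fun_prop) _ _
          · exact intervalIntegrable_const
          · intro u hu
            exact h m u hu.1 hu.2
      _ = B / 2 := by
          rw [intervalIntegral.integral_const, smul_eq_mul]
          ring
  have h2 : Tendsto (fun m : ℕ => ∫ σ in ((1 / 2 : ℝ) ^ m)..1, G σ) atTop
      (𝓝 (∫ σ in (0:ℝ)..1, G σ)) := by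
    have hc : Continuous (fun x : ℝ => ∫ σ in x..1, G σ) := by
      have h3 : Continuous (fun x : ℝ => ∫ σ in (1:ℝ)..x, G σ) :=
        intervalIntegral.continuous_primitive (fun a b => hG.intervalIntegrable a b) (1:ℝ)
      have e : (fun x : ℝ => ∫ σ in x..1, G σ) = fun x => - ∫ σ in (1:ℝ)..x, G σ := by
        ext x
        rw [intervalIntegral.integral_symm]
      rw [e]
      exact h3.neg
    have h3 : Tendsto (fun m : ℕ => (1 / 2 : ℝ) ^ m) atTop (𝓝 0) :=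
      tendsto_pow_atTop_nhds_zero_of_lt_one (by norm_num) (by norm_num)
    exact (hc.tendsto 0).comp h3
  exact le_of_tendsto' h2 h1

lemma rp_cont {k : ℕ} (hk : 1 ≤ k) : Continuous (fun σ : ℝ => (k : ℝ) ^ (-(1 / 2) - σ)) := by
  have hk0 : (k : ℝ) ≠ 0 := by
    have : k ≠ 0 := by omega
    exact_mod_cast this
  exact (Real.continuous_const_rpow hk0).comp (continuous_const.sub continuous_id)

lemma term (k : ℕ) (hk : 2 ≤ k) : ∫ σ in (0:ℝ)..1, (k:ℝ) ^ (-(1 / 2) - σ) =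
    ((k:ℝ) ^ (-(1 / 2) : ℝ) - (k:ℝ) ^ (-(3 / 2) : ℝ)) / Real.log k := by
  have hk0 : (0:ℝ) < k := by
    have : 0 < k := by omega
    exact_mod_cast this
  have hl : 0 < Real.log k := Real.log_pos (by exact_mod_cast (by omega : 1 < k))
  have hd : ∀ σ : ℝ, HasDerivAt (fun σ : ℝ => -((k:ℝ) ^ (-(1 / 2) - σ) / Real.log k))
      ((k:ℝ) ^ (-(1 / 2) - σ)) σ := by
    intro σ
    have h1 : HasDerivAt (fun σ : ℝ => -(1 / 2) - σ) (-1) σ :=
      (hasDerivAt_id' σ).const_sub (-(1 / 2))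
    have h2 := ((h1.const_rpow hk0).div_const (Real.log k)).neg
    have h3 : -(Real.log k * -1 * (k:ℝ) ^ (-(1 / 2) - σ) / Real.log k) =
        (k:ℝ) ^ (-(1 / 2) - σ) := by
      rw [mul_neg_one, neg_mul, neg_div, neg_neg, mul_div_cancel_left₀ _ hl.ne']
    rw [h3] at h2
    exact h2
  rw [intervalIntegral.integral_eq_sub_of_hasDerivAt (fun σ _ => hd σ)
    ((rp_cont (by omega)).intervalIntegrable _ _)]
  have e1 : (-(1 / 2) - 1 : ℝ) = -(3 / 2) := by norm_num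
  have e2 : (-(1 / 2) - 0 : ℝ) = -(1 / 2) := by norm_num
  rw [e1, e2]
  ring

end PkgSIG

theorem T_SIG : P_SIG := by
  set S := ∑' n : ℕ, (n:ℝ) ^ (-(3 / 2) : ℝ) with hS
  have hsum : Summable (fun n : ℕ => (n:ℝ) ^ (-(3 / 2) : ℝ)) :=
    Real.summable_nat_rpow.mpr (by norm_num)
  have hS0 : 0 ≤ S := tsum_nonneg fun n => by positivity
  have hl2 : 0 < Real.log 2 := Real.log_pos (by norm_num)
  refine ⟨2 + S / Real.log 2, by positivity, ?_⟩
  intro N b B hb hB hm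
  rcases Nat.eq_zero_or_pos N with rfl | hN
  · simp
    positivity
  set g : ℝ → ℂ := fun σ => ∑ k ∈ Icc 1 N, b k * (((k : ℝ) ^ (-(1 / 2) - σ) : ℝ) : ℂ) with hg
  have hgc : Continuous g := by
    refine continuous_finsetSum _ fun k hk => ?_
    have hk1 := (mem_Icc.mp hk).1
    exact continuous_const.mul (Complex.continuous_ofReal.comp (PkgSIG.rp_cont hk1))
  have hint : ‖∫ σ in (0:ℝ)..1, g σ‖ ≤ B / 2 := by
    refine (intervalIntegral.norm_integral_le_integral_norm (by norm_num)).trans ?_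
    exact PkgSIG.int_bound (fun σ => ‖g σ‖) hgc.norm B (fun m u h1 h2 => hm m u h1 h2)
  have e0 : Icc 1 N = insert 1 (Icc 2 N) := by
    ext k
    simp only [mem_Icc, mem_insert]
    omega
  have hval : ∫ σ in (0:ℝ)..1, g σ = b 1 + ∑ k ∈ Icc 2 N,
      b k * ((((k:ℝ) ^ (-(1 / 2) : ℝ) - (k:ℝ) ^ (-(3 / 2) : ℝ)) / Real.log k : ℝ) : ℂ) := by
    rw [hg, intervalIntegral.integral_finsetSum]
    · rw [e0, sum_insert (by simp)]
      congr 1
      · simp
      · refine sum_congr rfl fun k hk => ?_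
        rw [intervalIntegral.integral_const_mul, intervalIntegral.integral_ofReal,
          PkgSIG.term k (mem_Icc.mp hk).1]
    · intro k hk
      have hk1 := (mem_Icc.mp hk).1
      exact (continuous_const.mul
        (Complex.continuous_ofReal.comp (PkgSIG.rp_cont hk1))).intervalIntegrable _ _
  have hfin : ∑ k ∈ Icc 2 N, b k / ((√k * Real.log k : ℝ) : ℂ) =
      (∫ σ in (0:ℝ)..1, g σ) - b 1 +
        ∑ k ∈ Icc 2 N, b k * (((k:ℝ) ^ (-(3 / 2) : ℝ) / Real.log k : ℝ) : ℂ) := by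
    rw [hval, add_sub_cancel_left, ← sum_add_distrib]
    refine sum_congr rfl fun k hk => ?_
    have hr : (√k * Real.log k)⁻¹ =
        ((k:ℝ) ^ (-(1 / 2) : ℝ) - (k:ℝ) ^ (-(3 / 2) : ℝ)) / Real.log k +
          (k:ℝ) ^ (-(3 / 2) : ℝ) / Real.log k := by
      rw [← add_div, sub_add_cancel, Real.rpow_neg (Nat.cast_nonneg k), ← Real.sqrt_eq_rpow, mul_inv,
        div_eq_mul_inv]
    rw [← mul_add, ← Complex.ofReal_add, div_eq_mul_inv, ← Complex.ofReal_inv, hr]
  have hlast : ‖∑ k ∈ Icc 2 N, b k * (((k:ℝ) ^ (-(3 / 2) : ℝ) / Real.log k : ℝ) : ℂ)‖ ≤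
      S / Real.log 2 * B := by
    calc _ ≤ ∑ k ∈ Icc 2 N, ‖b k * (((k:ℝ) ^ (-(3 / 2) : ℝ) / Real.log k : ℝ) : ℂ)‖ :=
          norm_sum_le _ _
      _ ≤ ∑ k ∈ Icc 2 N, B / Real.log 2 * (k:ℝ) ^ (-(3 / 2) : ℝ) := by
          refine sum_le_sum fun k hk => ?_
          have hk2 := (mem_Icc.mp hk).1
          have hkN := (mem_Icc.mp hk).2
          have hlk : Real.log 2 ≤ Real.log k :=
            Real.log_le_log (by norm_num) (by exact_mod_cast hk2)
          have hq : 0 ≤ (k:ℝ) ^ (-(3 / 2) : ℝ) := by positivity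
          rw [norm_mul, Complex.norm_real, Real.norm_eq_abs,
            abs_of_nonneg (div_nonneg hq (hl2.le.trans hlk))]
          calc ‖b k‖ * ((k:ℝ) ^ (-(3 / 2) : ℝ) / Real.log k)
              ≤ B * ((k:ℝ) ^ (-(3 / 2) : ℝ) / Real.log 2) := by
                refine mul_le_mul (hb k (mem_Icc.mpr ⟨by omega, hkN⟩)) ?_
                  (div_nonneg hq (hl2.le.trans hlk)) hB
                exact div_le_div_of_nonneg_left hq hl2 hlk
            _ = B / Real.log 2 * (k:ℝ) ^ (-(3 / 2) : ℝ) := by ring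
      _ = B / Real.log 2 * ∑ k ∈ Icc 2 N, (k:ℝ) ^ (-(3 / 2) : ℝ) := by rw [mul_sum]
      _ ≤ B / Real.log 2 * S := by
          refine mul_le_mul_of_nonneg_left ?_ (by positivity)
          exact hsum.sum_le_tsum _ (fun n _ => by positivity)
      _ = S / Real.log 2 * B := by ring
  have hb1 : ‖b 1‖ ≤ B := hb 1 (mem_Icc.mpr ⟨le_rfl, hN⟩)
  rw [hfin]
  calc _ ≤ ‖(∫ σ in (0:ℝ)..1, g σ) - b 1‖ +
        ‖∑ k ∈ Icc 2 N, b k * (((k:ℝ) ^ (-(3 / 2) : ℝ) / Real.log k : ℝ) : ℂ)‖ := norm_add_le _ _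
    _ ≤ (‖∫ σ in (0:ℝ)..1, g σ‖ + ‖b 1‖) + S / Real.log 2 * B := by
        gcongr
        exact norm_sub_le _ _
    _ ≤ (B / 2 + B) + S / Real.log 2 * B := by gcongr
    _ ≤ (2 + S / Real.log 2) * B := by linarith

end Pool.Agent.T2H19.HD
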