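import Pool.Agent.T2H19.HD.Stm

/-! # SUB1: the square root of the modulus of a polynomial against the root of the Poisson kernel

`√|c|` is at most the modulus of a product `h` of square roots of linear factors which is analytic in the disc and
has `|h| = √|c|` on the circle; the Cauchy formula for `h` gives the inequality, as `|1 - r z| = |z - r|` there. -/

set_option autoImplicit false

namespace Pool.Agent.T2H19.HD

open Finset Filter Topology MeasureTheory

namespace PkgSUB1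

/-- the root of `1 - β z` -/
noncomputable def sq (β z : ℂ) : ℂ := (1 - β * z) ^ (((1 / 2 : ℝ)) : ℂ)

theorem sq_norm (β z : ℂ) : ‖sq β z‖ = √‖1 - β * z‖ := by
  unfold sq
  rw [Complex.norm_cpow_real, Real.sqrt_eq_rpow]

theorem re_nonneg {β z : ℂ} (hβ : ‖β‖ ≤ 1) (hz : ‖z‖ ≤ 1) : 0 ≤ (1 - β * z).re := by
  have h1 : ‖β * z‖ ≤ 1 := by
    rw [norm_mul]
    exact mul_le_one₀ hβ (norm_nonneg _) hz
  have h2 := (Complex.abs_re_le_norm (β * z)).trans h1
  have h3 := (abs_le.mp h2).2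
  simp only [Complex.sub_re, Complex.one_re]
  linarith

theorem re_pos {β z : ℂ} (hβ : ‖β‖ ≤ 1) (hz : ‖z‖ < 1) : 0 < (1 - β * z).re := by
  have h1 : ‖β * z‖ < 1 := by
    rw [norm_mul]
    calc ‖β‖ * ‖z‖ ≤ 1 * ‖z‖ := mul_le_mul_of_nonneg_right hβ (norm_nonneg _)
      _ < 1 := by rw [one_mul]; exact hz
  have h2 := (Complex.abs_re_le_norm (β * z)).trans_lt h1
  have h3 := (abs_lt.mp h2).2
  simp only [Complex.sub_re, Complex.one_re]
  linarith

theorem sq_diff {β : ℂ} (hβ : ‖β‖ ≤ 1) : DiffContOnCl ℂ (sq β) (Metric.ball 0 1) := by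
  constructor
  · intro z hz
    have hz' : ‖z‖ < 1 := by simpa using hz
    have h1 : (1 - β * z) ∈ Complex.slitPlane := Or.inl (re_pos hβ hz')
    have h2 : DifferentiableAt ℂ (fun z : ℂ => 1 - β * z) z := by fun_prop
    exact (h2.cpow_const h1).differentiableWithinAt
  · rw [closure_ball (0 : ℂ) one_ne_zero]
    intro z hz
    have hz' : ‖z‖ ≤ 1 := by simpa using hz
    have h1 : ContinuousAt (fun x : ℂ => x ^ (((1 / 2 : ℝ)) : ℂ)) (1 - β * z) :=
      Complex.continuousAt_cpow_const_of_re_pos (Or.inl (re_nonneg hβ hz')) (by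
        rw [Complex.ofReal_re]; norm_num)
    have h2 : ContinuousAt (fun z : ℂ => 1 - β * z) z := by fun_prop
    exact (ContinuousAt.comp (f := fun z : ℂ => 1 - β * z) (g := fun x : ℂ => x ^ (((1 / 2 : ℝ)) : ℂ)) h1 h2).continuousWithinAt

/-- the modulus of `h` -/
def Good (c h : ℂ → ℂ) : Prop :=
  DiffContOnCl ℂ h (Metric.ball 0 1) ∧ (∀ z : ℂ, ‖z‖ = 1 → ‖h z‖ = √‖c z‖) ∧ ∀ z : ℂ, ‖z‖ < 1 → √‖c z‖ ≤ ‖h z‖

theorem good_mul {c d h k : ℂ → ℂ} (hc : Good c h) (hd : Good d k) : Good (fun z => c z * d z) (fun z => h z * k z) := by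
  obtain ⟨a1, a2, a3⟩ := hc
  obtain ⟨b1, b2, b3⟩ := hd
  refine ⟨a1.smul b1, ?_, ?_⟩
  · intro z hz
    rw [norm_mul, norm_mul, a2 z hz, b2 z hz, Real.sqrt_mul (norm_nonneg _)]
  · intro z hz
    rw [norm_mul, norm_mul, Real.sqrt_mul (norm_nonneg _)]
    exact mul_le_mul (a3 z hz) (b3 z hz) (Real.sqrt_nonneg _) (norm_nonneg _)

theorem good_const (a : ℂ) : Good (fun _ => a) (fun _ => ((√‖a‖ : ℝ) : ℂ)) := by
  refine ⟨diffContOnCl_const, ?_, ?_⟩
  · intro z _
    rw [Complex.norm_real, Real.norm_of_nonneg (Real.sqrt_nonneg _)]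
  · intro z _
    rw [Complex.norm_real, Real.norm_of_nonneg (Real.sqrt_nonneg _)]

theorem good_sq {β : ℂ} (hβ : ‖β‖ ≤ 1) : Good (fun z => 1 - β * z) (sq β) :=
  ⟨sq_diff hβ, fun z _ => sq_norm β z, fun z _ => (sq_norm β z).ge⟩

theorem norm_eq_circle (α z : ℂ) (hz : ‖z‖ = 1) : ‖1 - (starRingEnd ℂ) α * z‖ = ‖z - α‖ := by
  have h1 : z * (starRingEnd ℂ) z = 1 := by
    rw [Complex.mul_conj, Complex.normSq_eq_norm_sq, hz]; norm_num
  have h2 : 1 - (starRingEnd ℂ) α * z = z * (starRingEnd ℂ) (z - α) := by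
    rw [map_sub, mul_sub, h1]; ring
  rw [h2, norm_mul, hz, one_mul, RCLike.norm_conj]

theorem norm_le_disc (α z : ℂ) (hα : ‖α‖ ≤ 1) (hz : ‖z‖ ≤ 1) : ‖z - α‖ ≤ ‖1 - (starRingEnd ℂ) α * z‖ := by
  have h1 : ‖1 - (starRingEnd ℂ) α * z‖ ^ 2 - ‖z - α‖ ^ 2 = (1 - ‖z‖ ^ 2) * (1 - ‖α‖ ^ 2) := by
    rw [← Complex.normSq_eq_norm_sq, ← Complex.normSq_eq_norm_sq, ← Complex.normSq_eq_norm_sq, ← Complex.normSq_eq_norm_sq]
    simp only [Complex.normSq_apply, Complex.sub_re, Complex.sub_im, Complex.one_re, Complex.one_im, Complex.mul_re,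
      Complex.mul_im, Complex.conj_re, Complex.conj_im]
    ring
  have h2 : 0 ≤ (1 - ‖z‖ ^ 2) * (1 - ‖α‖ ^ 2) := by
    apply mul_nonneg
    · nlinarith [norm_nonneg z]
    · nlinarith [norm_nonneg α]
  exact le_of_sq_le_sq (by linarith) (norm_nonneg _)

theorem good_lin (α : ℂ) : ∃ h, Good (fun z => z - α) h := by
  by_cases hα : ‖α‖ ≤ 1
  · refine ⟨sq ((starRingEnd ℂ) α), sq_diff (by rwa [RCLike.norm_conj]), ?_, ?_⟩
    · intro z hz
      rw [sq_norm, norm_eq_circle α z hz]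
    · intro z hz
      rw [sq_norm]
      exact Real.sqrt_le_sqrt (norm_le_disc α z hα hz.le)
  · push Not at hα
    have h0 : α ≠ 0 := by
      intro h; rw [h, norm_zero] at hα; linarith
    have h1 := good_mul (good_const (-α)) (good_sq (β := α⁻¹) (by
      rw [norm_inv]; exact inv_le_one_of_one_le₀ hα.le))
    have h2 : (fun z : ℂ => -α * (1 - α⁻¹ * z)) = fun z => z - α := by
      funext z
      field_simp
      ring
    rw [h2] at h1
    exact ⟨_, h1⟩

theorem good_prod (s : Multiset ℂ) : ∃ h, Good (fun z => ((s.map fun α => Polynomial.X - Polynomial.C α).prod).eval z) h := by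
  induction s using Multiset.induction_on with
  | empty =>
    refine ⟨fun _ => ((√‖(1 : ℂ)‖ : ℝ) : ℂ), ?_⟩
    simp only [Multiset.map_zero, Multiset.prod_zero, Polynomial.eval_one]
    exact good_const 1
  | cons a s ih =>
    obtain ⟨h, hh⟩ := ih
    obtain ⟨k, hk⟩ := good_lin a
    refine ⟨fun z => k z * h z, ?_⟩
    simp only [Multiset.map_cons, Multiset.prod_cons, Polynomial.eval_mul, Polynomial.eval_sub, Polynomial.eval_X,
      Polynomial.eval_C]
    exact good_mul hk hh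

theorem good_poly (c : Polynomial ℂ) : ∃ h, Good (fun z => c.eval z) h := by
  obtain ⟨h, hh⟩ := good_prod c.roots
  have h1 := (IsAlgClosed.splits c).eq_prod_roots
  refine ⟨fun z => ((√‖c.leadingCoeff‖ : ℝ) : ℂ) * h z, ?_⟩
  have h2 : (fun z => c.eval z) = fun z => c.leadingCoeff * ((c.roots.map fun α => Polynomial.X - Polynomial.C α).prod).eval z := by
    funext z
    conv_lhs => rw [h1]
    rw [Polynomial.eval_mul, Polynomial.eval_C]
  rw [h2]
  exact good_mul (good_const _) hh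

theorem zz_coe (t : ℝ) : zz (t : UnitAddCircle) = circleMap 0 1 (2 * Real.pi * t) := by
  unfold zz circleMap
  rw [fourier_coe_apply]
  push_cast
  rw [zero_add, one_mul]
  congr 1
  ring

theorem norm_zz (t : ℝ) : ‖zz (t : UnitAddCircle)‖ = 1 := by
  rw [zz_coe, norm_circleMap_zero, abs_one]

theorem cauchy (h : ℂ → ℂ) (hh : DiffContOnCl ℂ h (Metric.ball 0 1)) (w : ℂ) (hw : ‖w‖ < 1) :
    ‖h w‖ ≤ ∫ t in (0 : ℝ)..1, ‖h (zz (t : UnitAddCircle))‖ / ‖zz (t : UnitAddCircle) - w‖ := by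
  have h1 := hh.two_pi_i_inv_smul_circleIntegral_sub_inv_smul (w := w) (by simpa using hw)
  rw [← h1, norm_smul]
  have h2 : ‖∮ z in C((0 : ℂ), 1), (z - w)⁻¹ • h z‖ ≤
      ∫ θ in (0 : ℝ)..(2 * Real.pi), ‖h (circleMap 0 1 θ)‖ / ‖circleMap 0 1 θ - w‖ := by
    unfold circleIntegral
    refine (intervalIntegral.norm_integral_le_integral_norm (by positivity)).trans (le_of_eq ?_)
    apply intervalIntegral.integral_congr
    intro θ _
    simp only [deriv_circleMap, smul_eq_mul, norm_mul, norm_inv, Complex.norm_I, mul_one, norm_circleMap_zero, abs_one,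
      one_mul]
    rw [div_eq_inv_mul]
  have h3 : ∫ θ in (0 : ℝ)..(2 * Real.pi), ‖h (circleMap 0 1 θ)‖ / ‖circleMap 0 1 θ - w‖ =
      (2 * Real.pi) * ∫ t in (0 : ℝ)..1, ‖h (zz (t : UnitAddCircle))‖ / ‖zz (t : UnitAddCircle) - w‖ := by
    have := intervalIntegral.mul_integral_comp_mul_left (a := (0 : ℝ)) (b := 1)
      (f := fun θ : ℝ => ‖h (circleMap 0 1 θ)‖ / ‖circleMap 0 1 θ - w‖) (2 * Real.pi)
    rw [mul_zero, mul_one] at this
    rw [← this]
    congr 1
    apply intervalIntegral.integral_congr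
    intro t _
    simp only [zz_coe]
  have h4 : ‖(2 * (Real.pi : ℂ) * Complex.I)⁻¹‖ = (2 * Real.pi)⁻¹ := by
    rw [norm_inv, norm_mul, norm_mul, Complex.norm_I, Complex.norm_real, Real.norm_of_nonneg Real.pi_pos.le]
    simp
  rw [h4]
  calc (2 * Real.pi)⁻¹ * ‖∮ z in C((0 : ℂ), 1), (z - w)⁻¹ • h z‖
      ≤ (2 * Real.pi)⁻¹ * ((2 * Real.pi) * ∫ t in (0 : ℝ)..1, ‖h (zz (t : UnitAddCircle))‖ / ‖zz (t : UnitAddCircle) - w‖) := by
        rw [← h3]
        exact mul_le_mul_of_nonneg_left h2 (by positivity)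
    _ = _ := by
        rw [← mul_assoc, inv_mul_cancel₀ (by positivity), one_mul]

end PkgSUB1

open PkgSUB1 in
theorem T_SUB1 : P_SUB1 := by
  intro c r hr0 hr1
  obtain ⟨h, h1, h2, h3⟩ := good_poly c
  have hw : ‖(r : ℂ)‖ < 1 := by
    rw [Complex.norm_real, Real.norm_of_nonneg hr0]; exact hr1
  have h4 := (h3 (r : ℂ) hw).trans (cauchy h h1 (r : ℂ) hw)
  have h5 : ∫ θ : UnitAddCircle, √‖c.eval (zz θ)‖ * √(PK r θ) =
      √(1 - r ^ 2) * ∫ t in (0 : ℝ)..1, ‖h (zz (t : UnitAddCircle))‖ / ‖zz (t : UnitAddCircle) - (r : ℂ)‖ := by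
    rw [← UnitAddCircle.intervalIntegral_preimage 0, zero_add, ← intervalIntegral.integral_const_mul]
    apply intervalIntegral.integral_congr
    intro t _
    have e1 : ‖1 - (r : ℂ) * zz (t : UnitAddCircle)‖ = ‖zz (t : UnitAddCircle) - (r : ℂ)‖ := by
      have := norm_eq_circle (r : ℂ) (zz (t : UnitAddCircle)) (norm_zz t)
      rwa [Complex.conj_ofReal] at this
    simp only
    rw [h2 _ (norm_zz t)]
    unfold PK
    rw [e1, Real.sqrt_div (by nlinarith), Real.sqrt_sq (norm_nonneg _)]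
    ring
  rw [h5, mul_comm]
  exact mul_le_mul_of_nonneg_left h4 (Real.sqrt_nonneg _)

end Pool.Agent.T2H19.HD
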