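import Pool.Agent.T2H19.HD.Stm

/-! Package SUBN of `Pool.Agent.T2H19.HD`. -/

set_option autoImplicit false

namespace Pool.Agent.T2H19.HD

open Finset Filter Topology MeasureTheory

namespace PkgSUBN

lemma continuous_zz : Continuous zz := (fourier 1).continuous

lemma norm_zz (θ : UnitAddCircle) : ‖zz θ‖ = 1 := by
  unfold zz
  rw [fourier_apply]
  exact Circle.norm_coe _

lemma den_ne {r : ℝ} (h0 : 0 ≤ r) (h1 : r < 1) (θ : UnitAddCircle) : ‖1 - (r : ℂ) * zz θ‖ ≠ 0 := by
  intro h
  rw [norm_eq_zero, sub_eq_zero] at h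
  have := congrArg norm h
  rw [norm_one, norm_mul, norm_zz, mul_one, Complex.norm_real, Real.norm_of_nonneg h0] at this
  linarith

lemma continuous_PK {r : ℝ} (h0 : 0 ≤ r) (h1 : r < 1) : Continuous (PK r) := by
  unfold PK
  have := continuous_zz
  refine Continuous.div continuous_const (by fun_prop) ?_
  intro θ
  exact pow_ne_zero _ (den_ne h0 h1 θ)

/-- fixing the first variable -/
noncomputable def fixFirst {n : ℕ} (c : (Fin (n + 1) → ℕ) →₀ ℂ) (w : ℂ) : (Fin n → ℕ) →₀ ℂ :=
  c.sum fun α v => Finsupp.single (fun i => α i.succ) (v * w ^ α 0)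

lemma ev_fixFirst {n : ℕ} (c : (Fin (n + 1) → ℕ) →₀ ℂ) (w : ℂ) (z : Fin n → ℂ) :
    ev (fixFirst c w) z = ev c (Fin.cons w z) := by
  unfold ev fixFirst
  rw [Finsupp.sum_sum_index]
  · refine Finsupp.sum_congr fun α _ => ?_
    rw [Finsupp.sum_single_index]
    · rw [Fin.prod_univ_succ]
      simp only [Fin.cons_zero, Fin.cons_succ]
      ring
    · simp
  · intro a; simp
  · intro a b₁ b₂; ring

/-- the polynomial in the first variable -/
noncomputable def polyFirst {n : ℕ} (c : (Fin (n + 1) → ℕ) →₀ ℂ) (z : Fin n → ℂ) : Polynomial ℂ :=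
  c.sum fun α v => Polynomial.monomial (α 0) (v * ∏ i, z i ^ α (Fin.succ i))

lemma eval_polyFirst {n : ℕ} (c : (Fin (n + 1) → ℕ) →₀ ℂ) (w : ℂ) (z : Fin n → ℂ) :
    (polyFirst c z).eval w = ev c (Fin.cons w z) := by
  unfold ev polyFirst
  rw [Finsupp.sum, Finsupp.sum, Polynomial.eval_finsetSum]
  refine Finset.sum_congr rfl fun α _ => ?_
  rw [Polynomial.eval_monomial, Fin.prod_univ_succ]
  simp only [Fin.cons_zero, Fin.cons_succ]
  ring

lemma continuous_ev {n : ℕ} (c : (Fin n → ℕ) →₀ ℂ) : Continuous (ev c) := by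
  unfold ev Finsupp.sum
  fun_prop

lemma cint {n : ℕ} {f : (Fin n → UnitAddCircle) → ℝ} (hf : Continuous f) : Integrable f := by
  refine (hf.continuousOn.integrableOn_compact (μ := volume) isCompact_univ).integrable_of_forall_notMem_eq_zero ?_
  simp

lemma fubini {n : ℕ} {f : (Fin (n + 1) → UnitAddCircle) → ℝ} (hf : Continuous f) :
    ∫ θ, f θ = ∫ t : UnitAddCircle, ∫ θ : Fin n → UnitAddCircle, f (Fin.cons t θ) := by
  have h := (MeasureTheory.volume_preserving_piFinSuccAbove (fun _ : Fin (n + 1) => UnitAddCircle) 0)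
  have h2 := h.symm.integral_comp' (g := f)
  rw [← h2]
  have h3 : ∀ p : UnitAddCircle × (Fin n → UnitAddCircle),
      (MeasurableEquiv.piFinSuccAbove (fun _ : Fin (n + 1) => UnitAddCircle) 0).symm p = Fin.cons p.1 p.2 := by
    intro p
    simp [MeasurableEquiv.piFinSuccAbove, Fin.consEquiv]
  simp only [h3]
  have hc : Continuous fun p : UnitAddCircle × (Fin n → UnitAddCircle) => f (Fin.cons p.1 p.2) := by
    refine hf.comp ?_
    refine continuous_pi fun i => ?_
    refine Fin.cases ?_ (fun j => ?_) i
    · simpa using continuous_fst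
    · simp only [Fin.cons_succ]
      fun_prop
  have hi : Integrable (fun p : UnitAddCircle × (Fin n → UnitAddCircle) => f (Fin.cons p.1 p.2)) (volume.prod volume) := by
    refine (hc.continuousOn.integrableOn_compact (μ := volume.prod volume) isCompact_univ).integrable_of_forall_notMem_eq_zero ?_
    simp
  exact MeasureTheory.integral_prod _ hi

end PkgSUBN

open PkgSUBN in
theorem T_SUBN (h : P_SUB1) : P_SUBN := by
  intro n
  induction n with
  | zero =>
    intro c r _ _
    have : IsProbabilityMeasure (volume : Measure (Fin 0 → UnitAddCircle)) :=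
      ⟨by rw [volume_pi, Measure.pi_univ]; simp⟩
    simp [ev]
  | succ n ih =>
    intro c r hr0 hr1
    set r' : Fin n → ℝ := fun i => r i.succ with hr'
    have hcz := continuous_zz
    have hcons : (fun i => ((r i : ℝ) : ℂ)) = Fin.cons ((r 0 : ℝ) : ℂ) (fun i => ((r' i : ℝ) : ℂ)) := by
      funext i
      refine Fin.cases ?_ (fun j => ?_) i
      · simp
      · simp [hr']
    have hcons2 : ∀ (t : UnitAddCircle) (θ : Fin n → UnitAddCircle),
        (fun i => zz ((Fin.cons t θ : Fin (n + 1) → UnitAddCircle) i)) = Fin.cons (zz t) (fun i => zz (θ i)) := by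
      intro t θ
      funext i
      refine Fin.cases ?_ (fun j => ?_) i
      · simp
      · simp
    have hF : Continuous fun θ : Fin (n + 1) → UnitAddCircle =>
        √‖ev c (fun i => zz (θ i))‖ * ∏ i, √(PK (r i) (θ i)) := by
      refine Continuous.mul ?_ ?_
      · refine (((continuous_ev c).comp ?_).norm).sqrt
        fun_prop
      · refine continuous_finsetProd _ fun i _ => ?_
        exact ((continuous_PK (hr0 i) (hr1 i)).comp (continuous_apply i)).sqrt
    rw [fubini hF]
    simp only [hcons2, Fin.prod_univ_succ, Fin.cons_zero, Fin.cons_succ]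
    -- the first variable
    have h1 := h (polyFirst c (fun i => ((r' i : ℝ) : ℂ))) (r 0) (hr0 0) (hr1 0)
    simp only [eval_polyFirst] at h1
    rw [hcons]
    have hprod : 0 ≤ ∏ i : Fin n, √(1 - r' i ^ 2) := Finset.prod_nonneg fun i _ => Real.sqrt_nonneg _
    have h2 := mul_le_mul_of_nonneg_right h1 hprod
    rw [← integral_mul_const] at h2
    refine le_trans (le_of_eq (by ring)) (h2.trans ?_)
    -- the other variables
    have hcont1 : Continuous fun t : UnitAddCircle =>
        √‖ev c (Fin.cons (zz t) (fun i => ((r' i : ℝ) : ℂ)))‖ * √(PK (r 0) t) * ∏ i : Fin n, √(1 - r' i ^ 2) := by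
      refine Continuous.mul (Continuous.mul ?_ (continuous_PK (hr0 0) (hr1 0)).sqrt) continuous_const
      refine (((continuous_ev c).comp ?_).norm).sqrt
      refine continuous_pi fun i => ?_
      refine Fin.cases ?_ (fun j => ?_) i
      · simpa using hcz
      · simpa using continuous_const
    have hcont2 : Continuous fun p : UnitAddCircle × (Fin n → UnitAddCircle) =>
        √‖ev c (Fin.cons (zz p.1) (fun i => zz (p.2 i)))‖ * (√(PK (r 0) p.1) * ∏ i : Fin n, √(PK (r i.succ) (p.2 i))) := by
      refine Continuous.mul ?_ (Continuous.mul ?_ ?_)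
      · refine (((continuous_ev c).comp ?_).norm).sqrt
        refine continuous_pi fun i => ?_
        refine Fin.cases ?_ (fun j => ?_) i
        · simp only [Fin.cons_zero]
          exact hcz.comp continuous_fst
        · simp only [Fin.cons_succ]
          exact hcz.comp ((continuous_apply j).comp continuous_snd)
      · exact ((continuous_PK (hr0 0) (hr1 0)).comp continuous_fst).sqrt
      · refine continuous_finsetProd _ fun i _ => ?_
        exact ((continuous_PK (hr0 i.succ) (hr1 i.succ)).comp ((continuous_apply i).comp continuous_snd)).sqrt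
    have hi2 : Integrable (fun p : UnitAddCircle × (Fin n → UnitAddCircle) =>
        √‖ev c (Fin.cons (zz p.1) (fun i => zz (p.2 i)))‖ * (√(PK (r 0) p.1) * ∏ i : Fin n, √(PK (r i.succ) (p.2 i))))
        (volume.prod volume) := by
      refine (hcont2.continuousOn.integrableOn_compact (μ := volume.prod volume) isCompact_univ).integrable_of_forall_notMem_eq_zero ?_
      simp
    refine integral_mono ?_ hi2.integral_prod_left ?_
    · refine (hcont1.continuousOn.integrableOn_compact (μ := volume) isCompact_univ).integrable_of_forall_notMem_eq_zero ?_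
      simp
    · intro t
      have h3 := ih (fixFirst c (zz t)) r' (fun i => hr0 i.succ) (fun i => hr1 i.succ)
      simp only [ev_fixFirst] at h3
      have h4 := mul_le_mul_of_nonneg_right h3 (Real.sqrt_nonneg (PK (r 0) t))
      rw [← integral_mul_const] at h4
      refine le_trans (le_of_eq (by ring)) (h4.trans (le_of_eq ?_))
      refine integral_congr_ae (ae_of_all _ fun θ => ?_)
      show _ = _
      simp only [hr']
      ring

end Pool.Agent.T2H19.HD
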