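import Pool.Agent.T2H19.HD.Stm
import Pool.Agent.Helper821.HB.NormF

set_option autoImplicit false

namespace Pool.Agent.T2H19.HD

open Finset Filter Topology MeasureTheory

namespace PkgTOR

theorem ev_sum {n : ℕ} (s : Finset ℕ) (e : ℕ → Fin n → ℕ) (b : ℕ → ℂ) (z : Fin n → ℂ) :
    ev (∑ k ∈ s, Finsupp.single (e k) (b k)) z = ∑ k ∈ s, b k * ∏ i, z i ^ e k i := by
  classical
  induction s using Finset.induction_on with
  | empty => simp [ev]
  | insert k s hk ih =>
    rw [sum_insert hk, sum_insert hk, ← ih]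
    unfold ev
    rw [Finsupp.sum_add_index', Finsupp.sum_single_index]
    · simp
    · intro α
      simp
    · intro α v w
      ring

/-- exponents -/
noncomputable def ee (n k : ℕ) : Fin n → ℕ := fun i => k.factorization (pp i)

theorem pp_prime (i : ℕ) : (pp i).Prime := Nat.prime_nth_prime i

theorem pp_inj : Function.Injective pp := HB.P_strictMono.injective

theorem prod_eq {N k : ℕ} (hk : k ∈ Icc 1 N) :
    ∏ i : Fin (N + 1), pp i ^ ee (N + 1) k i = k := by
  classical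
  rw [mem_Icc] at hk
  have hk0 : k ≠ 0 := by omega
  have h1 := Nat.prod_factorization_pow_eq_self hk0
  have h2 : k.factorization.prod (fun p e => p ^ e) =
      ∏ p ∈ (univ.image fun i : Fin (N + 1) => pp i), p ^ k.factorization p := by
    refine Finsupp.prod_of_support_subset _ ?_ _ (fun p _ => pow_zero p)
    intro p hp
    have hpp : p.Prime := Nat.prime_of_mem_primeFactors hp
    obtain ⟨i, hi⟩ := HB.P_surj hpp
    have hle : p ≤ N := (Nat.le_of_dvd (by omega) (Nat.dvd_of_mem_primeFactors hp)).trans hk.2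
    have hi2 : i ≤ HB.P i := HB.P_strictMono.le_apply
    rw [mem_image]
    exact ⟨⟨i, by omega⟩, mem_univ _, hi⟩
  rw [h2, prod_image] at h1
  · exact h1
  · intro i _ j _ h
    exact Fin.ext (pp_inj h)

theorem ee_inj {N k j : ℕ} (hk : k ∈ Icc 1 N) (hj : j ∈ Icc 1 N)
    (h : ee (N + 1) k = ee (N + 1) j) : k = j := by
  rw [← prod_eq hk, ← prod_eq hj, h]

theorem chi_prod {χ : ℕ → ℂ} (hχ : CM χ) {ι : Type} (s : Finset ι) (f : ι → ℕ)
    (hf : ∀ i ∈ s, 1 ≤ f i) : χ (∏ i ∈ s, f i) = ∏ i ∈ s, χ (f i) := by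
  classical
  induction s using Finset.induction_on with
  | empty => simpa using hχ.1
  | insert k s hk ih =>
    rw [prod_insert hk, prod_insert hk, hχ.2.2, ih fun i hi => hf i (mem_insert_of_mem hi)]
    · exact hf k (mem_insert_self _ _)
    · exact Nat.one_le_iff_ne_zero.2 (prod_ne_zero_iff.2 fun i hi =>
        Nat.one_le_iff_ne_zero.1 (hf i (mem_insert_of_mem hi)))

theorem chi_pow {χ : ℕ → ℂ} (hχ : CM χ) (p e : ℕ) (hp : 1 ≤ p) : χ (p ^ e) = χ p ^ e := by
  induction e with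
  | zero => simpa using hχ.1
  | succ e ih => rw [pow_succ, pow_succ, hχ.2.2 _ _ (Nat.one_le_pow _ _ hp) hp, ih]

theorem chi_eq {χ : ℕ → ℂ} (hχ : CM χ) {N k : ℕ} (hk : k ∈ Icc 1 N) :
    χ k = ∏ i : Fin (N + 1), χ (pp i) ^ ee (N + 1) k i := by
  conv_lhs => rw [← prod_eq hk]
  rw [chi_prod hχ univ (fun i : Fin (N + 1) => pp i ^ ee (N + 1) k i)
    fun i _ => Nat.one_le_pow _ _ (pp_prime i).one_lt.le]
  exact prod_congr rfl fun i _ => chi_pow hχ _ _ (pp_prime i).one_lt.le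

theorem rr_prod {N k : ℕ} (hk : k ∈ Icc 1 N) (σ : ℝ) :
    ∏ i : Fin (N + 1), rr σ i ^ ee (N + 1) k i = (k : ℝ) ^ (-(1 / 2) - σ) := by
  conv_rhs => rw [← prod_eq hk]
  push_cast
  rw [← Real.finsetProd_rpow _ _ fun i _ => by positivity]
  refine prod_congr rfl fun i _ => ?_
  unfold rr
  rw [← Real.rpow_natCast, ← Real.rpow_natCast, ← Real.rpow_mul (by positivity),
    ← Real.rpow_mul (by positivity), mul_comm]

theorem log_sum {N k : ℕ} (hk : k ∈ Icc 1 N) :
    ∑ i : Fin (N + 1), (ee (N + 1) k i : ℝ) * Real.log (pp i) = Real.log k := by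
  conv_rhs => rw [← prod_eq hk]
  push_cast
  rw [Real.log_prod fun i _ => pow_ne_zero _ (by exact_mod_cast (pp_prime i).ne_zero)]
  exact sum_congr rfl fun i _ => (Real.log_pow _ _).symm

theorem fourier_pow (θ : UnitAddCircle) (m : ℕ) : (fourier (m : ℤ) θ : ℂ) = zz θ ^ m := by
  induction m with
  | zero => simp
  | succ m ih =>
    rw [pow_succ, ← ih]
    unfold zz
    rw [← fourier_add]
    push_cast
    rfl

theorem mF_eq {n : ℕ} (α : Fin n → ℕ) (θ : Fin n → UnitAddCircle) :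
    UnitAddTorus.mFourier (fun i => (α i : ℤ)) θ = ∏ i, zz (θ i) ^ α i := by
  show ∏ i, (fourier (α i : ℤ) (θ i) : ℂ) = _
  exact prod_congr rfl fun i _ => fourier_pow _ _

theorem zz_add (θ φ : UnitAddCircle) : zz (θ + φ) = zz θ * zz φ := by
  unfold zz
  simp [fourier_apply, AddCircle.toCircle_add]

theorem exists_zz (w : ℂ) (hw : ‖w‖ = 1) : ∃ φ : UnitAddCircle, zz φ = w := by
  refine ⟨((w.arg / (2 * Real.pi) : ℝ) : UnitAddCircle), ?_⟩
  unfold zz
  rw [fourier_coe_apply]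
  have h1 := Complex.norm_mul_exp_arg_mul_I w
  rw [hw, Complex.ofReal_one, one_mul] at h1
  refine Eq.trans ?_ h1
  congr 1
  have hp : (Real.pi : ℂ) ≠ 0 := by exact_mod_cast Real.pi_ne_zero
  push_cast
  field_simp

/-- the polynomial on the torus -/
noncomputable def F0 (N : ℕ) (a : ℕ → ℂ) : C(UnitAddTorus (Fin (N + 1)), ℂ) :=
  ∑ k ∈ Icc 1 N, a k • UnitAddTorus.mFourier (fun i => (ee (N + 1) k i : ℤ))

theorem F0_apply (N : ℕ) (a : ℕ → ℂ) (θ : Fin (N + 1) → UnitAddCircle) :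
    F0 N a θ = ∑ k ∈ Icc 1 N, a k * ∏ i, zz (θ i) ^ ee (N + 1) k i := by
  unfold F0
  rw [ContinuousMap.coe_sum, Finset.sum_apply]
  refine sum_congr rfl fun k _ => ?_
  rw [ContinuousMap.coe_smul, Pi.smul_apply, mF_eq, smul_eq_mul]

theorem F0_lin (N : ℕ) (a : ℕ → ℂ) (t : ℝ) :
    F0 N a (HB.lin (fun i => -Real.log (pp i)) t) =
      ∑ k ∈ Icc 1 N, a k / ((k : ℂ) ^ (2 * (Real.pi : ℂ) * Complex.I * (t : ℂ))) := by
  unfold F0
  rw [ContinuousMap.coe_sum, Finset.sum_apply]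
  refine sum_congr rfl fun k hk => ?_
  have hk0 : (k : ℂ) ≠ 0 := by
    have := (mem_Icc.1 hk).1
    exact_mod_cast (by omega : k ≠ 0)
  rw [ContinuousMap.coe_smul, Pi.smul_apply, HB.mFourier_lin, smul_eq_mul, div_eq_mul_inv,
    Complex.cpow_def_of_ne_zero hk0, ← Complex.exp_neg]
  congr 2
  have h1 : ∑ i : Fin (N + 1), ((ee (N + 1) k i : ℤ) : ℝ) * -Real.log (pp i) = -Real.log k := by
    rw [← log_sum hk, ← sum_neg_distrib]
    refine sum_congr rfl fun i _ => ?_
    push_cast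
    ring
  rw [h1, ← Complex.natCast_log]
  push_cast
  ring

theorem limit (N : ℕ) (a : ℕ → ℂ) :
    Tendsto (mean N a) atTop (𝓝 (∫ θ : Fin (N + 1) → UnitAddCircle, ‖F0 N a θ‖)) := by
  have hl : ∀ m : Fin (N + 1) → ℤ, ∑ i, m i * -Real.log (pp i) = 0 → m = 0 := by
    intro m hm
    refine HB.log_indep (fun i : Fin (N + 1) => pp i) (fun i => pp_prime i)
      (fun i j h => Fin.ext (pp_inj h)) m ?_
    have h2 : ∑ i, (m i : ℝ) * -Real.log (pp i) = -∑ i, (m i : ℝ) * Real.log (pp i) := by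
      rw [← sum_neg_distrib]
      exact sum_congr rfl fun i _ => by ring
    rw [h2, neg_eq_zero] at hm
    exact hm
  let g : C(UnitAddTorus (Fin (N + 1)), ℂ) := ⟨fun x => ((‖F0 N a x‖ : ℝ) : ℂ),
    Complex.continuous_ofReal.comp (map_continuous (F0 N a)).norm⟩
  have h2 := HB.kronecker_weyl (fun i : Fin (N + 1) => -Real.log (pp i)) hl g
  have h3 : (∫ x, g x) = ((∫ x, ‖F0 N a x‖ : ℝ) : ℂ) := by
    show ∫ x, ((‖F0 N a x‖ : ℝ) : ℂ) = _
    exact integral_complex_ofReal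
  have h4 : ∀ T, HB.avg (fun t => g (HB.lin (fun i => -Real.log (pp i)) t)) (T / 2) =
      ((mean N a T : ℝ) : ℂ) := by
    intro T
    unfold HB.avg mean
    have h5 : (fun t => g (HB.lin (fun i => -Real.log (pp i)) t)) = fun t : ℝ =>
        ((‖∑ k ∈ Icc 1 N, a k / ((k : ℂ) ^ (2 * (Real.pi : ℂ) * Complex.I * (t : ℂ)))‖ : ℝ) : ℂ) := by
      ext t
      show ((‖F0 N a (HB.lin (fun i => -Real.log (pp i)) t)‖ : ℝ) : ℂ) = _
      rw [F0_lin]
    rw [h5, intervalIntegral.integral_ofReal, Complex.real_smul, ← Complex.ofReal_mul,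
      show 2 * (T / 2) = T by ring, show -(T / 2) = -T / 2 by ring]
  rw [h3] at h2
  have h6 : Tendsto (fun T => ((mean N a T : ℝ) : ℂ)) atTop
      (𝓝 ((∫ x, ‖F0 N a x‖ : ℝ) : ℂ)) :=
    (h2.comp (tendsto_id.atTop_div_const (show (0 : ℝ) < 2 by norm_num))).congr h4
  have h7 := (Complex.continuous_re.tendsto _).comp h6
  simpa [Function.comp_def] using h7

theorem coef (N : ℕ) (a : ℕ → ℂ) {j : ℕ} (hj : j ∈ Icc 1 N) :
    ‖a j‖ ≤ ∫ θ : Fin (N + 1) → UnitAddCircle, ‖F0 N a θ‖ := by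
  have hi : ∀ m : Fin (N + 1) → ℤ, Integrable (fun θ : UnitAddTorus (Fin (N + 1)) =>
      UnitAddTorus.mFourier m θ) := fun m =>
    (map_continuous _).integrable_of_hasCompactSupport (HasCompactSupport.of_compactSpace _)
  have h1 : ∫ θ : UnitAddTorus (Fin (N + 1)),
      F0 N a θ * UnitAddTorus.mFourier (-(fun i => (ee (N + 1) j i : ℤ))) θ = a j := by
    have h2 : ∀ θ : UnitAddTorus (Fin (N + 1)),
        F0 N a θ * UnitAddTorus.mFourier (-(fun i => (ee (N + 1) j i : ℤ))) θ =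
        ∑ k ∈ Icc 1 N, a k * UnitAddTorus.mFourier
          ((fun i => (ee (N + 1) k i : ℤ)) + -(fun i => (ee (N + 1) j i : ℤ))) θ := by
      intro θ
      unfold F0
      rw [ContinuousMap.coe_sum, Finset.sum_apply, sum_mul]
      refine sum_congr rfl fun k _ => ?_
      rw [ContinuousMap.coe_smul, Pi.smul_apply, smul_eq_mul, UnitAddTorus.mFourier_add, mul_assoc]
    simp_rw [h2]
    rw [integral_finsetSum _ fun k _ => (hi _).const_mul _]
    have h3 : ∀ k ∈ Icc 1 N, ∫ θ : UnitAddTorus (Fin (N + 1)), a k * UnitAddTorus.mFourier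
          ((fun i => (ee (N + 1) k i : ℤ)) + -(fun i => (ee (N + 1) j i : ℤ))) θ =
        if k = j then a j else 0 := by
      intro k hk
      rw [integral_const_mul, HB.integral_mFourier]
      by_cases h : k = j
      · subst h
        simp
      · rw [if_neg h, if_neg, mul_zero]
        intro h4
        apply h
        refine ee_inj hk hj (funext fun i => ?_)
        have h5 := congrFun h4 i
        simp only [Pi.add_apply, Pi.neg_apply, Pi.zero_apply] at h5
        have h6 : (ee (N + 1) k i : ℤ) = ee (N + 1) j i := by linarith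
        exact_mod_cast h6
    rw [sum_congr rfl h3, sum_ite_eq', if_pos hj]
  rw [← h1]
  refine (norm_integral_le_integral_norm _).trans (le_of_eq ?_)
  refine integral_congr_ae (Eventually.of_forall fun θ => ?_)
  show ‖F0 N a θ * UnitAddTorus.mFourier (-(fun i => (ee (N + 1) j i : ℤ))) θ‖ = ‖F0 N a θ‖
  have h7 : ‖UnitAddTorus.mFourier (-(fun i => (ee (N + 1) j i : ℤ))) θ‖ = 1 := by
    show ‖∏ i, (fourier ((-(fun i => (ee (N + 1) j i : ℤ))) i) (θ i) : ℂ)‖ = 1
    rw [norm_prod]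
    refine prod_eq_one fun i _ => ?_
    rw [fourier_apply]
    exact Circle.norm_coe _
  rw [norm_mul, h7, mul_one]

theorem rotate (N : ℕ) (a χ : ℕ → ℂ) (hχ : CM χ) :
    ∫ θ : Fin (N + 1) → UnitAddCircle,
      ‖∑ k ∈ Icc 1 N, (χ k * a k) * ∏ i, zz (θ i) ^ ee (N + 1) k i‖ =
    ∫ θ : Fin (N + 1) → UnitAddCircle, ‖F0 N a θ‖ := by
  choose φ hφ using fun i : Fin (N + 1) => exists_zz (χ (pp i))
    (hχ.2.1 _ (pp_prime i).one_lt.le)
  have h1 : ∀ θ : Fin (N + 1) → UnitAddCircle,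
      ∑ k ∈ Icc 1 N, (χ k * a k) * ∏ i, zz (θ i) ^ ee (N + 1) k i = F0 N a (θ + φ) := by
    intro θ
    rw [F0_apply]
    refine sum_congr rfl fun k hk => ?_
    simp only [Pi.add_apply, zz_add, mul_pow, prod_mul_distrib, hφ]
    rw [← chi_eq hχ hk]
    ring
  simp_rw [h1]
  exact integral_add_right_eq_self (μ := (volume : Measure (Fin (N + 1) → UnitAddCircle)))
    (fun θ => ‖F0 N a θ‖) φ

end PkgTOR

theorem T_TOR : P_TOR := by
  intro N a χ hχ
  refine ⟨N + 1, ∑ k ∈ Icc 1 N, Finsupp.single (PkgTOR.ee (N + 1) k) (χ k * a k), ?_, ?_, ?_⟩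
  · simp_rw [PkgTOR.ev_sum]
    rw [PkgTOR.rotate N a χ hχ]
    exact PkgTOR.limit N a
  · intro σ
    rw [PkgTOR.ev_sum]
    refine sum_congr rfl fun k hk => ?_
    rw [← PkgTOR.rr_prod hk]
    push_cast
    rfl
  · intro k hk
    simp_rw [PkgTOR.ev_sum]
    rw [PkgTOR.rotate N a χ hχ]
    exact PkgTOR.coef N a hk

end Pool.Agent.T2H19.HD
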