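import Pool.Agent.T2H19.HD.Stm

set_option autoImplicit false

namespace Pool.Agent.T2H19.HD.Fin

open Finset Filter Topology MeasureTheory

lemma pp_ge (i : ℕ) : i + 2 ≤ pp i := Nat.add_two_le_nth_prime i

lemma pp_one (i : ℕ) : (1:ℝ) ≤ pp i := by
  have := pp_ge i
  exact_mod_cast (by omega : 1 ≤ pp i)

lemma rr_pos (σ : ℝ) (i : ℕ) : 0 < rr σ i := Real.rpow_pos_of_pos (by linarith [pp_one i]) _

lemma rr_le (σ : ℝ) (hσ : 0 ≤ σ) (i : ℕ) : rr σ i ≤ (pp i : ℝ) ^ (-(1 / 2) : ℝ) :=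
  Real.rpow_le_rpow_of_exponent_le (pp_one i) (by linarith)

lemma rr_sq (σ : ℝ) (hσ : 0 ≤ σ) (i : ℕ) : rr σ i ^ 2 ≤ ((i : ℝ) + 2)⁻¹ := by
  have h1 : rr σ i ^ 2 ≤ ((pp i : ℝ) ^ (-(1 / 2) : ℝ)) ^ 2 := pow_le_pow_left₀ (rr_pos σ i).le (rr_le σ hσ i) 2
  have h2 : ((pp i : ℝ) ^ (-(1 / 2) : ℝ)) ^ 2 = (pp i : ℝ)⁻¹ := by
    rw [← Real.rpow_natCast, ← Real.rpow_mul (by linarith [pp_one i])]
    norm_num
    exact Real.rpow_neg_one _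
  rw [h2] at h1
  refine h1.trans ?_
  have h3 : ((i : ℝ) + 2) ≤ pp i := by exact_mod_cast pp_ge i
  exact inv_anti₀ (by positivity) h3

lemma rr_half (σ : ℝ) (hσ : 0 ≤ σ) (i : ℕ) : rr σ i ^ 2 ≤ 1 / 2 := by
  refine (rr_sq σ hσ i).trans ?_
  rw [one_div]
  exact inv_anti₀ (by norm_num) (by linarith [(Nat.cast_nonneg i : (0:ℝ) ≤ i)])

lemma rr_lt (σ : ℝ) (hσ : 0 ≤ σ) (i : ℕ) : rr σ i < 1 := by
  have h1 := rr_half σ hσ i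
  have h2 := rr_pos σ i
  nlinarith

lemma rr_four (σ : ℝ) (hσ : 0 ≤ σ) (i : ℕ) : rr σ i ^ 4 ≤ (((i : ℝ) + 2)⁻¹) ^ 2 := by
  have h := pow_le_pow_left₀ (sq_nonneg (rr σ i)) (rr_sq σ hσ i) 2
  calc rr σ i ^ 4 = (rr σ i ^ 2) ^ 2 := by ring
    _ ≤ _ := h

lemma sum_sq (n : ℕ) : ∑ i ∈ range n, (((i : ℝ) + 2)⁻¹) ^ 2 ≤ 1 - ((n : ℝ) + 1)⁻¹ := by
  induction n with
  | zero => simp
  | succ n ih =>
    rw [sum_range_succ]
    have h1 : (((n : ℝ) + 2)⁻¹) ^ 2 ≤ ((n : ℝ) + 1)⁻¹ - ((n : ℝ) + 2)⁻¹ := by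
      have ha : (0:ℝ) < (n : ℝ) + 1 := by positivity
      have hb : (0:ℝ) < (n : ℝ) + 2 := by positivity
      rw [inv_sub_inv ha.ne' hb.ne', inv_pow, inv_eq_one_div, div_le_div_iff₀ (by positivity) (by positivity)]
      nlinarith
    have h2 : ((n + 1 : ℕ) : ℝ) + 1 = (n : ℝ) + 2 := by push_cast; ring
    rw [h2]
    linarith

lemma sum_sq' (n : ℕ) : ∑ i ∈ range n, (((i : ℝ) + 2)⁻¹) ^ 2 ≤ 1 := by
  have h := sum_sq n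
  have : 0 ≤ ((n : ℝ) + 1)⁻¹ := by positivity
  linarith

lemma GG_comm (r s : ℝ) : GG r s = GG s r := by
  unfold GG
  exact integral_congr_ae (Eventually.of_forall fun θ => mul_comm _ _)

lemma GG_nonneg (r s : ℝ) : 0 ≤ GG r s := integral_nonneg fun θ => by positivity

lemma GG_le (hG : P_GGB) (s t : ℝ) (hs : 0 ≤ s) (ht : 0 ≤ t) (i : ℕ) :
    GG (rr s i) (rr t i) ≤ Real.exp (-(rr s i - rr t i) ^ 2 / 4 + 2 * (((i : ℝ) + 2)⁻¹) ^ 2) := by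
  rcases le_total (rr t i) (rr s i) with h | h
  · refine (hG (rr s i) (rr t i) (rr_pos t i).le h (rr_half s hs i)).trans ?_
    refine Real.exp_le_exp.2 ?_
    linarith [rr_four s hs i]
  · rw [GG_comm]
    refine (hG (rr t i) (rr s i) (rr_pos s i).le h (rr_half t ht i)).trans ?_
    refine Real.exp_le_exp.2 ?_
    have e : (rr t i - rr s i) ^ 2 = (rr s i - rr t i) ^ 2 := by ring
    have e2 : -(rr t i - rr s i) ^ 2 = -(rr s i - rr t i) ^ 2 := by rw [e]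
    linarith [rr_four t ht i]

lemma prod_GG (hG : P_GGB) (n : ℕ) (s t : ℝ) (hs : 0 ≤ s) (ht : 0 ≤ t) :
    ∏ i : Fin n, GG (rr s i) (rr t i) ≤ Real.exp 2 * Real.exp (-(DD n s t) / 4) := by
  have h1 : ∏ i : Fin n, GG (rr s i) (rr t i) ≤
      ∏ i : Fin n, Real.exp (-(rr s i - rr t i) ^ 2 / 4 + 2 * (((i : ℕ) : ℝ) + 2)⁻¹ ^ 2) :=
    Finset.prod_le_prod (fun i _ => GG_nonneg _ _) (fun i _ => GG_le hG s t hs ht i)
  refine h1.trans ?_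
  rw [← Real.exp_sum, ← Real.exp_add]
  refine Real.exp_le_exp.2 ?_
  rw [Fin.sum_univ_eq_sum_range (fun i : ℕ => -(rr s i - rr t i) ^ 2 / 4 + 2 * (((i : ℝ) + 2)⁻¹) ^ 2) n,
    sum_add_distrib, ← mul_sum]
  have h2 : ∑ i ∈ range n, -(rr s i - rr t i) ^ 2 / 4 = -(DD n s t) / 4 := by
    unfold DD
    rw [← sum_neg_distrib, ← sum_div]
  rw [h2]
  linarith [sum_sq' n]

lemma disc (hA : P_ABS) (hG : P_GGB) (hD : P_ADD) : ∃ C : ℝ, 0 < C ∧ ∀ (n m : ℕ) (c : (Fin n → ℕ) →₀ ℂ) (u : ℝ),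
    1 / 2 ≤ u → u ≤ 1 →
    ∑ J ∈ range m, (1 / 2 : ℝ) ^ J * ‖ev c (fun i => ((rr ((1 / 2 : ℝ) ^ J * u) i : ℝ) : ℂ))‖ ≤
      C * ∫ θ : Fin n → UnitAddCircle, ‖ev c (fun i => zz (θ i))‖ := by
  obtain ⟨C, hC, h⟩ := hD
  refine ⟨Real.exp 2 * C, by positivity, fun n m c u hu hu1 => ?_⟩
  have hu0 : 0 < u := by linarith
  have hσ : ∀ J : ℕ, 0 ≤ (1 / 2 : ℝ) ^ J * u := fun J => by positivity
  refine hA n m c (fun J i => rr ((1 / 2 : ℝ) ^ J * u) i) (fun J i => (rr_pos _ _).le) (fun J i => rr_lt _ (hσ J) _)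
    (fun J => (1 / 2 : ℝ) ^ J) (fun J => by positivity) (Real.exp 2 * C) (by positivity) (fun J _ => ?_)
  have h1 := h n m J u hu hu1
  calc ∑ I ∈ range m, (1 / 2 : ℝ) ^ I * (∏ i : Fin n, (1 - rr ((1 / 2 : ℝ) ^ I * u) i ^ 2)⁻¹) *
        ∏ i : Fin n, GG (rr ((1 / 2 : ℝ) ^ I * u) i) (rr ((1 / 2 : ℝ) ^ J * u) i)
      ≤ ∑ I ∈ range m, Real.exp 2 * ((1 / 2 : ℝ) ^ I * mu n ((1 / 2 : ℝ) ^ I * u) *
        Real.exp (-(DD n ((1 / 2 : ℝ) ^ I * u) ((1 / 2 : ℝ) ^ J * u)) / 4)) := by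
        refine sum_le_sum fun I _ => ?_
        have e1 : ∏ i : Fin n, (1 - rr ((1 / 2 : ℝ) ^ I * u) i ^ 2)⁻¹ = mu n ((1 / 2 : ℝ) ^ I * u) := by
          unfold mu
          rw [Fin.prod_univ_eq_prod_range (fun i : ℕ => (1 - rr ((1 / 2 : ℝ) ^ I * u) i ^ 2)⁻¹) n]
        rw [e1]
        have hmu : 0 ≤ mu n ((1 / 2 : ℝ) ^ I * u) := by
          unfold mu
          refine prod_nonneg fun i _ => inv_nonneg.2 ?_
          have := rr_half _ (hσ I) i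
          linarith
        have h2 := prod_GG hG n _ _ (hσ I) (hσ J)
        have h3 : 0 ≤ (1 / 2 : ℝ) ^ I * mu n ((1 / 2 : ℝ) ^ I * u) := by positivity
        calc _ ≤ (1 / 2 : ℝ) ^ I * mu n ((1 / 2 : ℝ) ^ I * u) *
              (Real.exp 2 * Real.exp (-(DD n ((1 / 2 : ℝ) ^ I * u) ((1 / 2 : ℝ) ^ J * u)) / 4)) :=
              mul_le_mul_of_nonneg_left h2 h3
          _ = _ := by ring
    _ = Real.exp 2 * ∑ I ∈ range m, (1 / 2 : ℝ) ^ I * mu n ((1 / 2 : ℝ) ^ I * u) *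
        Real.exp (-(DD n ((1 / 2 : ℝ) ^ I * u) ((1 / 2 : ℝ) ^ J * u)) / 4) := by rw [mul_sum]
    _ ≤ Real.exp 2 * C := by gcongr

theorem main (hA : P_ABS) (hG : P_GGB) (hD : P_ADD) (hT : P_TOR) (hS : P_SIG) :
    ∃ C : ℝ, 0 < C ∧ ∀ (N : ℕ), 1 ≤ N → ∀ (a : ℕ → ℂ), ∃ L : ℝ, Tendsto (mean N a) atTop (𝓝 L) ∧
      ∀ χ : ℕ → ℂ, CM χ → C * (‖a 1‖ + ‖∑ k ∈ Icc 2 N, χ k * a k / ((√k * Real.log k : ℝ) : ℂ)‖) ≤ L := by
  obtain ⟨C₁, hC₁, hd⟩ := disc hA hG hD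
  obtain ⟨C₃, hC₃, hs⟩ := hS
  have hpos : 0 < 1 + C₃ * (1 + C₁) := by positivity
  refine ⟨(1 + C₃ * (1 + C₁))⁻¹, inv_pos.2 hpos, fun N hN a => ?_⟩
  have hone : CM (fun _ => 1) := ⟨rfl, fun _ _ => norm_one, fun _ _ _ _ => (one_mul 1).symm⟩
  obtain ⟨n₀, c₀, hlim, -, -⟩ := hT N a (fun _ => 1) hone
  refine ⟨_, hlim, fun χ hχ => ?_⟩
  obtain ⟨n, c, hlim', hev, hcoef⟩ := hT N a χ hχ
  rw [tendsto_nhds_unique hlim hlim']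
  set L := ∫ θ : Fin n → UnitAddCircle, ‖ev c (fun i => zz (θ i))‖ with hL
  have hL0 : 0 ≤ L := integral_nonneg fun _ => norm_nonneg _
  have h1 : ‖∑ k ∈ Icc 2 N, (χ k * a k) / ((√k * Real.log k : ℝ) : ℂ)‖ ≤ C₃ * ((1 + C₁) * L) := by
    refine hs N (fun k => χ k * a k) ((1 + C₁) * L) (fun k hk => ?_) (by positivity) (fun m u hu hu1 => ?_)
    · rw [norm_mul, hχ.2.1 k (mem_Icc.1 hk).1, one_mul]
      have := hcoef k hk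
      nlinarith
    · have h2 := hd n m c u hu hu1
      simp only [hev] at h2
      refine h2.trans ?_
      nlinarith
  have h2 : ‖a 1‖ ≤ L := hcoef 1 (mem_Icc.2 ⟨le_rfl, hN⟩)
  rw [inv_mul_le_iff₀ hpos]
  calc ‖a 1‖ + ‖∑ k ∈ Icc 2 N, χ k * a k / ((√k * Real.log k : ℝ) : ℂ)‖ ≤ L + C₃ * ((1 + C₁) * L) := add_le_add h2 h1
    _ = _ := by ring

/-- the case of multiplicative phases -/
theorem phases {C L : ℝ} {N : ℕ} {a : ℕ → ℂ}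
    (h : ∀ χ : ℕ → ℂ, CM χ → C * (‖a 1‖ + ‖∑ k ∈ Icc 2 N, χ k * a k / ((√k * Real.log k : ℝ) : ℂ)‖) ≤ L)
    (χ : ℕ → ℂ) (hχ : CM χ) (ha : ∀ k ∈ Icc 2 N, a k = χ k * (‖a k‖ : ℂ)) :
    C * (‖a 1‖ + ∑ k ∈ Icc 2 N, ‖a k‖ / (√k * Real.log k)) ≤ L := by
  have hχ' : CM (fun k => (starRingEnd ℂ) (χ k)) := by
    refine ⟨by simp [hχ.1], fun k hk => ?_, fun m n hm hn => ?_⟩
    · rw [RCLike.norm_conj]
      exact hχ.2.1 k hk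
    · simp only [hχ.2.2 m n hm hn, map_mul]
  have h1 := h _ hχ'
  have h2 : ∑ k ∈ Icc 2 N, (starRingEnd ℂ) (χ k) * a k / ((√k * Real.log k : ℝ) : ℂ) =
      ((∑ k ∈ Icc 2 N, ‖a k‖ / (√k * Real.log k) : ℝ) : ℂ) := by
    push_cast
    refine sum_congr rfl fun k hk => ?_
    have hk1 : 1 ≤ k := by
      have := (mem_Icc.1 hk).1
      omega
    have e : (starRingEnd ℂ) (χ k) * a k = (‖a k‖ : ℂ) := by
      conv_lhs => rw [ha k hk]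
      rw [← mul_assoc, mul_comm ((starRingEnd ℂ) (χ k)), Complex.mul_conj, Complex.normSq_eq_norm_sq, hχ.2.1 k hk1]
      simp
    rw [e]
  rw [h2, Complex.norm_real, Real.norm_eq_abs, abs_of_nonneg] at h1
  · exact h1
  · refine sum_nonneg fun k hk => ?_
    have hk2 : (2:ℝ) ≤ k := by exact_mod_cast (mem_Icc.1 hk).1
    have := Real.log_nonneg (by linarith : (1:ℝ) ≤ k)
    positivity

end Pool.Agent.T2H19.HD.Fin
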