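import Mathlib

/-! # Hardy's inequality for the functional `∑ a_k / (√k ln k)` on Dirichlet polynomials in `L¹`

Target `MP_ca4620_an`. THEOREM: there is `C > 0` such that for every Dirichlet polynomial and every completely multiplicative
unimodular `χ`: `C (|a_1| + |∑_{k ≥ 2} χ(k) a_k / (√k ln k)|) ≤ M(f)`. So Q1 holds for all coefficients with completely
multiplicative phases, e.g. `a_k ≥ 0` (the functional of the multiplicative Hilbert matrix is bounded on `H¹`).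

Proof. By Kronecker-Weyl `M(f) = ∫ |F|` over the torus, `F` a polynomial in the variables `z_p`. For a point `r = (r_p)` in
`[0,1)^n`: `|F(r)|^(1/2) ∏ (1 - r_p^2)^(1/2) ≤ ∫ |F|^(1/2) ∏ P_{r_p}^(1/2)` (subharmonicity of `|F / Φ|^(1/2)`,
`Φ = ∏ (1 - r_p^2) / (1 - r_p z_p)^2`, `|Φ| = ∏ P_{r_p}` the Poisson kernels). For several points `r^J` use Cauchy-Schwarz with
the weights `w_J = ∏ √P_J / ∑_I μ_I ∏ √P_I`, `∑ μ_J w_J = 1`: this bounds `∑_J κ_J |F(r^J)|` by `C ∫ |F|` as soon as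
`∑_I μ_I ∫ ∏ √P_I √P_J ≤ C` for all `J`. Apply it to the points `(p^(-1/2 - 2^(-J) u))_p`, `κ_J = 2^(-J)`, and integrate over
`u ∈ [1/2, 1]`, as `1 / ln k = ∫_0^∞ k^(-σ) dσ`.

Package `X`: file `Pool/Agent/T2H19/HD/T_X.lean`, `theorem T_X (hyp : P_Y) … : P_X`, namespace `Pool.Agent.T2H19.HD`,
your lemmas in the namespace `Pool.Agent.T2H19.HD.PkgX`; import `Pool.Agent.T2H19.HD.Stm` (and library files). -/

set_option autoImplicit false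

namespace Pool.Agent.T2H19.HD

open Finset Filter Topology MeasureTheory

/-- the primes `2, 3, 5, …` -/
noncomputable def pp (i : ℕ) : ℕ := Nat.nth Nat.Prime i

/-- the point `e^(2 π i θ)` of the unit circle -/
noncomputable def zz (θ : UnitAddCircle) : ℂ := (fourier 1 θ : ℂ)

/-- the Poisson kernel at `r` -/
noncomputable def PK (r : ℝ) (θ : UnitAddCircle) : ℝ := (1 - r ^ 2) / ‖1 - (r : ℂ) * zz θ‖ ^ 2

/-- a polynomial in `n` variables -/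
noncomputable def ev {n : ℕ} (c : (Fin n → ℕ) →₀ ℂ) (z : Fin n → ℂ) : ℂ := c.sum fun α v => v * ∏ i, z i ^ α i

/-- `∫ √P_r √P_s` -/
noncomputable def GG (r s : ℝ) : ℝ := ∫ θ : UnitAddCircle, √(PK r θ) * √(PK s θ)

/-- `p_i^(-1/2 - σ)` -/
noncomputable def rr (σ : ℝ) (i : ℕ) : ℝ := (pp i : ℝ) ^ (-(1 / 2) - σ)

/-- `∏_{i < n} (1 - p_i^(-1-2σ))^(-1)` -/
noncomputable def mu (n : ℕ) (σ : ℝ) : ℝ := ∏ i ∈ range n, (1 - rr σ i ^ 2)⁻¹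

/-- `∑_{i < n} (p_i^(-1/2-s) - p_i^(-1/2-t))^2` -/
noncomputable def DD (n : ℕ) (s t : ℝ) : ℝ := ∑ i ∈ range n, (rr s i - rr t i) ^ 2

/-- completely multiplicative and unimodular on the `k ≥ 1` -/
def CM (χ : ℕ → ℂ) : Prop := χ 1 = 1 ∧ (∀ k : ℕ, 1 ≤ k → ‖χ k‖ = 1) ∧ ∀ m n : ℕ, 1 ≤ m → 1 ≤ n → χ (m * n) = χ m * χ n

/-- the mean over `[-T/2, T/2]` -/
noncomputable def mean (N : ℕ) (a : ℕ → ℂ) (T : ℝ) : ℝ :=
  (1 / T) * ∫ t in (-T / 2)..(T / 2), ‖∑ k ∈ Icc 1 N, a k / ((k : ℂ) ^ (2 * (Real.pi : ℂ) * Complex.I * (t : ℂ)))‖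

/-! ## Analysis -/

/-- SUB1. Proof: it suffices that `|G(r)|^(1/2) ≤ ∫ |G|^(1/2) P_r` for `G = c · (1 - r z)^2 / (1 - r^2)` (`|G| P_r = |c|` on the circle,
`G(r) = c(r) (1 - r^2)`). Let `α_j` be the zeros of the polynomial `G` in `|z| < 1`; replace each factor `z - α_j` by `1 - conj α_j z`:
same modulus on the circle, larger at `r`. The new polynomial `Q` has no zeros in the open disc; for `ρ < 1` `Q(ρ z)` has no zeros in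
the closed disc, so it has an analytic square root and `√|Q(ρ r)| ≤ ∫ √|Q(ρ z)| P_r` by the Poisson formula (or: compose with the
Moebius map, mean value property); let `ρ → 1`. (Alternative: induction on the degree, or Jensen's formula of Mathlib for `log |G|`
and then Jensen's inequality: `|G(r)| ≤ exp ∫ log |G| P_r`; Mathlib: `circleAverage_log_norm`.) -/
def P_SUB1 : Prop :=
  ∀ (c : Polynomial ℂ) (r : ℝ), 0 ≤ r → r < 1 →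
    √‖c.eval (r : ℂ)‖ * √(1 - r ^ 2) ≤ ∫ θ : UnitAddCircle, √‖c.eval (zz θ)‖ * √(PK r θ)

/-- SUBN (from SUB1). Proof: induction on `n`: for fixed `θ_1, …, θ_n` apply SUB1 to the last (or first) variable, then the induction
hypothesis to the polynomials in the other variables obtained for the last variable `= r_n`; Fubini (everything is continuous:
`MeasureTheory.volume_preserving_piFinSuccAbove` or `MeasurableEquiv.piFinSuccAbove`). -/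
def P_SUBN : Prop :=
  ∀ (n : ℕ) (c : (Fin n → ℕ) →₀ ℂ) (r : Fin n → ℝ), (∀ i, 0 ≤ r i) → (∀ i, r i < 1) →
    √‖ev c (fun i => (r i : ℂ))‖ * ∏ i, √(1 - r i ^ 2) ≤
      ∫ θ : Fin n → UnitAddCircle, √‖ev c (fun i => zz (θ i))‖ * ∏ i, √(PK (r i) (θ i))

/-- ABS (from SUBN). Proof: `Π_J θ = ∏ √(PK (r J i) (θ i))`, `S = ∑_I μ_I Π_I > 0`, `w_J = Π_J / S`. By SUBN and Cauchy-Schwarz
`|F(r J)| ∏ (1 - r^2) ≤ (∫ √|F| Π_J)^2 ≤ ∫ |F| w_J · ∫ Π_J S`, and `∫ Π_J S = ∑_I μ_I ∏_i GG (r I i) (r J i) ≤ C`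
(`MeasureTheory.integral_fintype_prod_eq_prod`). Multiply by `μ_J` and sum: `∑ μ_J w_J = 1`. (`m = 0` is trivial.) -/
def P_ABS : Prop :=
  ∀ (n m : ℕ) (c : (Fin n → ℕ) →₀ ℂ) (r : ℕ → Fin n → ℝ), (∀ J i, 0 ≤ r J i) → (∀ J i, r J i < 1) →
    ∀ κ : ℕ → ℝ, (∀ J, 0 < κ J) → ∀ C : ℝ, 0 ≤ C →
      (∀ J, J < m → ∑ I ∈ range m, κ I * (∏ i, (1 - r I i ^ 2)⁻¹) * ∏ i, GG (r I i) (r J i) ≤ C) →
      ∑ J ∈ range m, κ J * ‖ev c (fun i => (r J i : ℂ))‖ ≤ C * ∫ θ : Fin n → UnitAddCircle, ‖ev c (fun i => zz (θ i))‖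

/-- GGB. Proof: `√(PK r θ) √(PK s θ) = √(1-r^2) √(1-s^2) |h|^2`, `h = ((1 - r z) (1 - s z))^(-1/2) = ∑ c_n z^n`,
`c_n = ∑_{i+j=n} b_i b_j r^i s^j`, `b_i` the coefficients of `(1 - z)^(-1/2)`: `c_0 = 1`, `c_1 = (r + s) / 2`,
`0 ≤ c_n ≤ r^n ∑ b_i b_j = r^n` (`s ≤ r`). Parseval: `∫ |h|^2 = ∑ c_n^2 ≤ 1 + (r+s)^2/4 + r^4/(1-r^2) ≤ exp ((r+s)^2/4 + 2 r^4)`,
and `√(1-r^2) ≤ exp (-r^2/2)`. -/
def P_GGB : Prop :=
  ∀ r s : ℝ, 0 ≤ s → s ≤ r → r ^ 2 ≤ 1 / 2 → GG r s ≤ Real.exp (-(r - s) ^ 2 / 4 + 2 * r ^ 4)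

/-- TOR. Proof: library `Pool.Agent.Helper821.HB.NormF` (`norm_formula`, Kronecker-Weyl on `UnitAddTorus κ`, with `κ = Fin n`,
`l i = - log (pp i) / (2 π)`, `e k i` = exponent of `pp i` in `k`; `log_indep` in `HB/Primes.lean`; rescale `t` by `2 π`, `T` by `π`), and
rotation invariance of the measure of the torus (`z_i ↦ χ (pp i) z_i`). The bound for `a k`: it is a Fourier coefficient of `ev c`
(up to `χ k`). Here `c` is the sum over `k` of `single (exponents of k) (χ k * a k)`, `n` so large that all prime factors of the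
`k ≤ N` are among `pp 0, …, pp (n-1)`. -/
def P_TOR : Prop :=
  ∀ (N : ℕ) (a χ : ℕ → ℂ), CM χ → ∃ (n : ℕ) (c : (Fin n → ℕ) →₀ ℂ),
    Tendsto (mean N a) atTop (𝓝 (∫ θ : Fin n → UnitAddCircle, ‖ev c (fun i => zz (θ i))‖)) ∧
    (∀ σ : ℝ, ev c (fun i => ((rr σ i : ℝ) : ℂ)) = ∑ k ∈ Icc 1 N, χ k * a k * (((k : ℝ) ^ (-(1 / 2) - σ) : ℝ) : ℂ)) ∧
    ∀ k ∈ Icc 1 N, ‖a k‖ ≤ ∫ θ : Fin n → UnitAddCircle, ‖ev c (fun i => zz (θ i))‖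

/-! ## Number theory -/

/-- MUA. Proof: `rr σ i ^ 2 = p^(-1-2σ)`, the product is `≤ ζ(1+2σ) ≤ 1 + 1/(2σ)` (every finite Euler product of nonnegative terms is
at most the series: `EulerProduct` or `riemannZeta_eulerProduct`; the series by the integral test). -/
def P_MUA : Prop := ∀ (n : ℕ) (σ : ℝ), 0 < σ → mu n σ ≤ 1 + 1 / (2 * σ)

/-- MUB. Proof: `mu n σ ≤ ∏_{i < n} (1 - 1/p_i)^(-1) ≤ C log (pp n)` by Mertens (library: `grep -rn mertens Pool/Agent`, e.g.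
`mertens_L` in `H500R2/Base.lean`, `mertens_inv` in `Erdos456/Mertens.lean`; all primes `< pp n` are `pp i`, `i < n`). -/
def P_MUB : Prop := ∃ C : ℝ, 0 < C ∧ ∀ (n : ℕ) (σ : ℝ), 0 ≤ σ → mu n σ ≤ C * Real.log (pp n)

/-- DDL. Proof: `c = 1/100`. If `exp (2/t) < p ≤ exp (1/s)` then `p^(-s) - p^(-t) ≥ e^(-1) - e^(-2) ≥ 0.23`, so the term is `≥ 0.05/p`.
All primes `< pp n` occur. By Mertens (second theorem, bounded error) `DD n s t ≥ 0.05 (log (min (log (pp n)) (1/s)) - log (2/t) - C')`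
(trivial if the range is empty), and `exp (- DD / 4) ≤ C (t · min (log (pp n)) (1/s))^(-1/100)` (also trivial if `t · min … ≤ 1`, as
`C ≥ 1`; note `0.05/4 = 1/80 ≥ 1/100`). -/
def P_DDL : Prop :=
  ∃ C : ℝ, 0 < C ∧ ∀ (n : ℕ) (s t : ℝ), 0 < s → s ≤ t → t ≤ 1 →
    Real.exp (-(DD n s t) / 4) ≤ C * (t * min (Real.log (pp n)) (1 / s)) ^ (-(1 / 100) : ℝ)

/-- ADD (from MUA, MUB, DDL). Proof: let `σ_I = 2^(-I) u`, `ℓ = log (pp n)`. The `I` with `σ_I < 1/ℓ`: `2^(-I) mu ≤ C ℓ 2^(-I) ≤ 2 C ℓ σ_I`,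
geometric sum `≤ 4 C` (use `exp (…) ≤ 1`). The `I` with `σ_I ≥ 1/ℓ`: `2^(-I) mu ≤ 2^(-I) + 1/(2u) ≤ 2`, and by DDL (`DD` is symmetric) the
exponential is `≤ C (σ_J / σ_I)^(-1/100) = C 2^(-(I-J)/100)` for `I ≥ J`; for `I < J` it is
`≤ C (σ_I min (ℓ, 1/σ_J))^(-1/100)`, where `min (ℓ, 1/σ_J) ≥ 1/σ_{I₁}`, `I₁` = the largest `I ≤ J` with `σ_I ≥ 1/ℓ`, so it is
`≤ C 2^(-(I₁-I)/100)`: geometric sums. -/
def P_ADD : Prop :=
  ∃ C : ℝ, 0 < C ∧ ∀ (n m J : ℕ) (u : ℝ), 1 / 2 ≤ u → u ≤ 1 →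
    ∑ I ∈ range m, (1 / 2 : ℝ) ^ I * mu n ((1 / 2 : ℝ) ^ I * u) *
      Real.exp (-(DD n ((1 / 2 : ℝ) ^ I * u) ((1 / 2 : ℝ) ^ J * u)) / 4) ≤ C

/-! ## The integral over `σ` -/

/-- SIG. Proof: `g σ = ∑_{1 ≤ k ≤ N} b k k^(-1/2-σ)`. `∫_0^1 k^(-σ) dσ = (1 - 1/k) / log k` for `k ≥ 2`, so
`∑_{k ≥ 2} b k / (√k log k) = ∫_0^1 g dσ - b 1 + ∑_{k ≥ 2} b k k^(-3/2) / log k`; the last sum is `≤ B ∑ k^(-3/2) / log 2`;
`∫_0^1 |g| = ∑_J ∫_{2^(-J-1)}^{2^(-J)} |g| = ∑_J ∫_{1/2}^1 2^(-J) |g (2^(-J) u)| du ≤ B` (finite sums over `J < m`, then `m → ∞`,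
`g` is bounded on `[0,1]`). -/
def P_SIG : Prop :=
  ∃ C : ℝ, 0 < C ∧ ∀ (N : ℕ) (b : ℕ → ℂ) (B : ℝ), (∀ k ∈ Icc 1 N, ‖b k‖ ≤ B) → 0 ≤ B →
    (∀ (m : ℕ) (u : ℝ), 1 / 2 ≤ u → u ≤ 1 → ∑ J ∈ range m, (1 / 2 : ℝ) ^ J *
      ‖∑ k ∈ Icc 1 N, b k * (((k : ℝ) ^ (-(1 / 2) - (1 / 2 : ℝ) ^ J * u) : ℝ) : ℂ)‖ ≤ B) →
    ‖∑ k ∈ Icc 2 N, b k / ((√k * Real.log k : ℝ) : ℂ)‖ ≤ C * B

end Pool.Agent.T2H19.HD
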